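import Pool.Agent.Q224.TD.Stmts

set_option autoImplicit false

namespace Pool.Agent.Q224.TD

theorem arith : Arith := by
  intro k t A S ht hk hA hS hC
  have ht8 : 1 ≤ t ^ 8 := Nat.one_le_pow _ _ (by omega)
  have hk1 : 1 ≤ k := by omega
  obtain ⟨m, rfl⟩ : ∃ m, k = m + 1 := ⟨k - 1, by omega⟩
  rw [Nat.add_sub_cancel] at hS
  obtain ⟨s, hs⟩ : ∃ s, s = Nat.sqrt (m + 1) := ⟨_, rfl⟩
  have hss : s * s ≤ m + 1 := by rw [hs]; exact Nat.sqrt_le _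
  have h63 : 63 * t ^ 4 ≤ s := by
    rw [hs, Nat.le_sqrt]
    calc 63 * t ^ 4 * (63 * t ^ 4) = 3969 * t ^ 8 := by ring
      _ ≤ 4000 * t ^ 8 := Nat.mul_le_mul_right _ (by norm_num)
      _ ≤ m + 1 := hk
  have hZ : ZZ t (m + 1) = 32 * t ^ 4 * (s + 2) := by
    unfold ZZ LL; rw [← hs]; ring
  have hL : LL t (m + 1) = 4 * t ^ 2 * (s + 1) := by
    unfold LL; rw [← hs]
  rw [hZ] at hS
  rw [hL] at hC
  have hS' : (t : ℤ) * ((m + 1) * m) ≤ S + 32 * t ^ 4 * (s + 2) := by exact_mod_cast hS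
  have hC' : 2 * (t : ℤ) * (m + 1) + S ≤ A + 2 * t * (4 * t ^ 2 * (s + 1) + 2) := by
    exact_mod_cast hC
  have hss' : (s : ℤ) * s ≤ m + 1 := by exact_mod_cast hss
  have h63' : 63 * (t : ℤ) ^ 4 ≤ s := by exact_mod_cast h63
  have ht' : (2 : ℤ) ≤ t := by exact_mod_cast ht
  have hA' : (A : ℤ) < ((m : ℤ) + 1 + 1) * ((m + 1) * t - 2) + 2 := by
    have := hA
    push_cast at this
    exact this
  have h1 : 2 * ((m : ℤ) + 1) < 32 * t ^ 4 * (s + 2) + 8 * t ^ 3 * (s + 1) + 4 * t := by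
    nlinarith [hS', hC', hA']
  have hs0 : (0 : ℤ) ≤ s := by positivity
  have ht4 : (16 : ℤ) ≤ (t : ℤ) ^ 4 := by
    calc (16 : ℤ) = 2 ^ 4 := by norm_num
      _ ≤ (t : ℤ) ^ 4 := by gcongr
  have h3 : 8 * (t : ℤ) ^ 3 ≤ 4 * t ^ 4 := by
    have h30 : (0 : ℤ) ≤ (t : ℤ) ^ 3 := by positivity
    have : (t : ℤ) ^ 4 = t * t ^ 3 := by ring
    rw [this]
    nlinarith
  have h4 : 4 * (t : ℤ) ≤ t ^ 4 := by
    have h30 : (8 : ℤ) ≤ (t : ℤ) ^ 3 := by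
      calc (8 : ℤ) = 2 ^ 3 := by norm_num
        _ ≤ (t : ℤ) ^ 3 := by gcongr
    have : (t : ℤ) ^ 4 = t * t ^ 3 := by ring
    rw [this]
    nlinarith
  have h5 : 126 * (t : ℤ) ^ 4 * s ≤ 2 * (s * s) := by nlinarith
  have h6 : 8 * (t : ℤ) ^ 3 * (s + 1) ≤ 4 * t ^ 4 * (s + 1) :=
    mul_le_mul_of_nonneg_right h3 (by linarith)
  have h7 : (1 : ℤ) ≤ s := by linarith
  have h8 : 69 * (t : ℤ) ^ 4 ≤ 69 * t ^ 4 * s := by nlinarith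
  nlinarith

end Pool.Agent.Q224.TD
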