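import Pool.Agent.Q224.TD.Stmts

/-!
# Project TD, task Assign
-/

set_option autoImplicit false

open scoped BigOperators Classical

namespace Pool.Agent.Q224.TD

private theorem assign_cr_mono {V : Type} (G : SimpleGraph V) {A A' B B' : Finset V}
    (hA : A ⊆ A') (hB : B ⊆ B') : cr G A B ≤ cr G A' B' := by
  unfold cr
  apply Finset.card_le_card
  apply Finset.filter_subset_filter
  exact Finset.product_subset_product hA hB

private theorem assign_arith (t k : ℕ) (ht : 2 ≤ t) :
    t ^ 2 * (10 * t ^ 2 * k) < (LL t k) ^ 2 := by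
  unfold LL
  have h1 : k < (Nat.sqrt k + 1) * (Nat.sqrt k + 1) := Nat.lt_succ_sqrt k
  have ht4 : 0 < t ^ 4 := by positivity
  have e1 : t ^ 2 * (10 * t ^ 2 * k) = t ^ 4 * (10 * k) := by ring
  have e2 : (4 * t ^ 2 * (Nat.sqrt k + 1)) ^ 2
      = t ^ 4 * (16 * ((Nat.sqrt k + 1) * (Nat.sqrt k + 1))) := by ring
  rw [e1, e2]
  apply Nat.mul_lt_mul_of_pos_left _ ht4
  omega

theorem assign (htr : Transv) : Assign := by
  intro V G k t U U0 c ht hsub hind hcr s hs
  by_contra hcon
  have hcon' : ∀ i : Fin t,
      LL t k ≤ ((part U0 c i).filter fun x => ¬ G.Adj s x).card := by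
    intro i
    by_contra h
    exact hcon ⟨i, by omega⟩
  have hne : (Finset.univ : Finset (Fin t)).Nonempty := ⟨⟨0, by omega⟩, Finset.mem_univ _⟩
  obtain ⟨f, hf, hfa⟩ := htr V G (Fin t) Finset.univ
    (fun i => (part U0 c i).filter fun x => ¬ G.Adj s x) (LL t k) (10 * t ^ 2 * k) hne
    (fun j _ => hcon' j)
    (fun i _ j _ hij => (assign_cr_mono G (Finset.filter_subset _ _)
      (Finset.filter_subset _ _)).trans (hcr i j hij))
    (by
      have := assign_arith t k ht
      simpa using this)
  rw [Finset.mem_sdiff] at hs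
  have hfi : ∀ i : Fin t, f i ∈ U0 ∧ c (f i) = i ∧ ¬ G.Adj s (f i) := by
    intro i
    have h := hf i (Finset.mem_univ _)
    simp only [part, Finset.mem_filter] at h
    exact ⟨h.1.1, h.1.2, h.2⟩
  have hinj : Function.Injective f := by
    intro i j hij
    have h1 := (hfi i).2.1
    have h2 := (hfi j).2.1
    rw [hij] at h1
    exact h1.symm.trans h2
  have hnot : s ∉ Finset.univ.image f := by
    intro h
    rw [Finset.mem_image] at h
    obtain ⟨i, -, hi⟩ := h
    exact hs.2 (hi ▸ (hfi i).1)
  have hcard : (insert s (Finset.univ.image f)).card = t + 1 := by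
    rw [Finset.card_insert_of_notMem hnot, Finset.card_image_of_injective _ hinj]
    simp
  have hle := hind (insert s (Finset.univ.image f)) (by
    intro x hx
    rw [Finset.mem_insert, Finset.mem_image] at hx
    rcases hx with rfl | ⟨i, -, rfl⟩
    · exact hs.1
    · exact hsub (hfi i).1) (by
    intro x hx y hy
    rw [Finset.mem_insert, Finset.mem_image] at hx hy
    rcases hx with rfl | ⟨i, -, rfl⟩
    · rcases hy with rfl | ⟨j, -, rfl⟩
      · exact G.loopless.irrefl _
      · exact (hfi j).2.2
    · rcases hy with rfl | ⟨j, -, rfl⟩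
      · intro h
        exact (hfi i).2.2 h.symm
      · by_cases hij : i = j
        · subst hij
          exact G.loopless.irrefl _
        · exact hfa i (Finset.mem_univ _) j (Finset.mem_univ _) hij)
  omega

end Pool.Agent.Q224.TD
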