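import Pool.Agent.Q224.TD.Stmts

/-!
# `BlocksEq`: one block of the disjoint union of complete graphs
-/

set_option autoImplicit false

open scoped BigOperators Classical

namespace Pool.Agent.Q224.TD

/-- **Task `BlocksEq`.** -/
theorem blocksEq : BlocksEq := by
  intro k t hk ht
  have hle : k ≤ k * t := Nat.le_mul_of_pos_right k ht
  set W : Finset (Fin (k * t)) := Finset.univ.map (Fin.castLEEmb hle) with hW
  have hcard : W.card = k := by rw [hW, Finset.card_map, Finset.card_univ, Fintype.card_fin]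
  have hlt : ∀ x ∈ W, (x : ℕ) < k := by
    intro x hx
    obtain ⟨a, -, rfl⟩ := Finset.mem_map.1 hx
    exact a.2
  refine ⟨W, hcard, ?_⟩
  have h1 := W.offDiag_card
  rw [hcard] at h1
  have h2 : k * (k - 1) = k * k - k := by rw [Nat.mul_sub, mul_one]
  rw [h2, ← h1]
  unfold arcs
  congr 1
  ext ⟨x, y⟩
  simp only [Finset.mem_filter, Finset.mem_product, Finset.mem_offDiag]
  constructor
  · rintro ⟨⟨hx, hy⟩, hne, -⟩
    exact ⟨hx, hy, hne⟩
  · rintro ⟨hx, hy, hne⟩
    refine ⟨⟨hx, hy⟩, hne, ?_⟩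
    rw [Nat.div_eq_of_lt (hlt x hx), Nat.div_eq_of_lt (hlt y hy)]

end Pool.Agent.Q224.TD
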