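import Pool.Agent.Q224.TD.Stmts

set_option autoImplicit false

namespace Pool.Agent.Q224.TD

theorem blocksFree : BlocksFree := by
  intro k t hk s hs
  rw [SimpleGraph.isNClique_iff] at hs
  obtain ⟨hc, hcard⟩ := hs
  have hinj : Set.InjOn (fun x : Fin (k * t) => (x : ℕ) / k) (s : Set (Fin (k * t))) := by
    intro x hx y hy hxy
    by_contra hne
    have h := hc hx hy hne
    rw [SimpleGraph.compl_adj] at h
    exact h.2 ⟨hne, hxy⟩
  have hmap : ∀ x ∈ s, (fun x : Fin (k * t) => (x : ℕ) / k) x ∈ Finset.range t := by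
    intro x _
    rw [Finset.mem_range]
    exact Nat.div_lt_of_lt_mul x.2
  have h := Finset.card_le_card_of_injOn _ hmap hinj
  rw [Finset.card_range, hcard] at h
  omega

end Pool.Agent.Q224.TD
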