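import Pool.Agent.Q224.TD.Stmts

set_option autoImplicit false

open scoped BigOperators Classical

namespace Pool.Agent.Q224.TD

private theorem fiber_le (k t : ℕ) (hk : 0 < k) (W : Finset (Fin (k * t))) (x : Fin (k * t)) :
    (((W ×ˢ W).filter fun p => (blocks k t).Adj p.1 p.2).filter fun p => p.1 = x).card ≤ k - 1 := by
  have h1 : ((Finset.range k).erase ((x : ℕ) % k)).card = k - 1 := by
    rw [Finset.card_erase_of_mem (Finset.mem_range.2 (Nat.mod_lt _ hk)), Finset.card_range]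
  rw [← h1]
  apply Finset.card_le_card_of_injOn (fun p => (p.2 : ℕ) % k)
  · intro p hp
    have hp' := Finset.mem_coe.1 hp
    rw [Finset.mem_filter, Finset.mem_filter] at hp'
    obtain ⟨⟨_, hadj⟩, hx⟩ := hp'
    have h2 : p.1 ≠ p.2 := hadj.1
    have h3 : (p.1 : ℕ) / k = (p.2 : ℕ) / k := hadj.2
    subst hx
    refine Finset.mem_coe.2 (Finset.mem_erase.2 ⟨?_, Finset.mem_range.2 (Nat.mod_lt _ hk)⟩)
    intro h4
    apply h2
    apply Fin.ext
    have e1 := Nat.div_add_mod (p.1 : ℕ) k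
    have e2 := Nat.div_add_mod (p.2 : ℕ) k
    have h4' : (p.2 : ℕ) % k = (p.1 : ℕ) % k := h4
    rw [← e1, ← e2, h3, h4']
  · intro p hp q hq hpq
    have hp' := Finset.mem_coe.1 hp
    have hq' := Finset.mem_coe.1 hq
    rw [Finset.mem_filter, Finset.mem_filter] at hp' hq'
    obtain ⟨⟨_, hp1⟩, hp2⟩ := hp'
    obtain ⟨⟨_, hq1⟩, hq2⟩ := hq'
    have h3 : (p.1 : ℕ) / k = (p.2 : ℕ) / k := hp1.2
    have h4 : (q.1 : ℕ) / k = (q.2 : ℕ) / k := hq1.2
    have h5 : (p.2 : ℕ) % k = (q.2 : ℕ) % k := hpq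
    apply Prod.ext
    · rw [hp2, hq2]
    · apply Fin.ext
      have e1 := Nat.div_add_mod (p.2 : ℕ) k
      have e2 := Nat.div_add_mod (q.2 : ℕ) k
      rw [← e1, ← e2, ← h3, ← h4, hp2, hq2, h5]

private theorem arcs_le (k t : ℕ) (hk : 0 < k) (W : Finset (Fin (k * t))) :
    arcs (blocks k t) W ≤ W.card * (k - 1) := by
  unfold arcs
  rw [Finset.card_eq_sum_card_fiberwise (f := Prod.fst) (t := W)]
  · calc _ ≤ ∑ _x ∈ W, (k - 1) := Finset.sum_le_sum fun x _ => fiber_le k t hk W x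
      _ = W.card * (k - 1) := by rw [Finset.sum_const, smul_eq_mul]
  · intro p hp
    have hp' := Finset.mem_coe.1 hp
    rw [Finset.mem_filter, Finset.mem_product] at hp'
    exact Finset.mem_coe.2 hp'.1.1

private theorem arcs_le2 (k t : ℕ) (W : Finset (Fin (k * t))) :
    arcs (blocks k t) W ≤ W.card * W.card - W.card := by
  rw [← Finset.offDiag_card]
  apply Finset.card_le_card
  intro p hp
  rw [Finset.mem_filter, Finset.mem_product] at hp
  exact Finset.mem_offDiag.2 ⟨hp.1.1, hp.1.2, hp.2.1⟩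

theorem blocksSp : BlocksSp := by
  intro k t hk W hW
  have h1 := arcs_le k t (by omega) W
  have h2 := arcs_le2 k t W
  generalize arcs (blocks k t) W = a at *
  generalize W.card = w at *
  by_cases hwk : w ≤ k
  · have h3 : (a : ℤ) ≤ (w : ℤ) * w - w := by
      have : w ≤ w * w := Nat.le_mul_self w
      have h4 : a + w ≤ w * w := by omega
      have : ((a + w : ℕ) : ℤ) ≤ ((w * w : ℕ) : ℤ) := by exact_mod_cast h4
      push_cast at this
      linarith
    have h5 : (0 : ℤ) ≤ ((k : ℤ) - w) * ((w : ℤ) - 2) :=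
      mul_nonneg (by have : (w : ℤ) ≤ k := by exact_mod_cast hwk
                     linarith) (by have : (3 : ℤ) ≤ w := by exact_mod_cast hW
                                   linarith)
    nlinarith
  · have h3 : (a : ℤ) ≤ (w : ℤ) * ((k : ℤ) - 1) := by
      have h4 : ((a : ℕ) : ℤ) ≤ ((w * (k - 1) : ℕ) : ℤ) := by exact_mod_cast h1
      rw [Nat.cast_mul, Nat.cast_sub (by omega)] at h4
      exact h4
    have h5 : (k : ℤ) ≤ w := by exact_mod_cast (by omega : k ≤ w)
    nlinarith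

end Pool.Agent.Q224.TD
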