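import Pool.Agent.Q224.TD.Stmts

set_option autoImplicit false

open scoped BigOperators Classical

namespace Pool.Agent.Q224.TD

theorem cliqueLt : CliqueLt := by
  intro V G k U C hk hSp hCU hC
  by_contra hcon
  push Not at hcon
  obtain ⟨C', hC'C, hcard⟩ := Finset.exists_subset_card_eq hcon
  have h1 := hSp C' (hC'C.trans hCU) (by omega)
  have h2 : arcs G C' = k * k - k := by
    unfold arcs
    have e : ((C' ×ˢ C').filter fun p => G.Adj p.1 p.2) = C'.offDiag := by
      ext ⟨x, y⟩
      simp only [Finset.mem_filter, Finset.mem_product, Finset.mem_offDiag]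
      constructor
      · rintro ⟨⟨hx, hy⟩, h⟩
        exact ⟨hx, hy, h.ne⟩
      · rintro ⟨hx, hy, h⟩
        exact ⟨⟨hx, hy⟩, hC x (hC'C hx) y (hC'C hy) h⟩
    rw [e, Finset.offDiag_card, hcard]
  rw [h2, hcard] at h1
  have h3 : k ≤ k * k := Nat.le_mul_self k
  push_cast [Nat.cast_sub h3] at h1
  nlinarith

end Pool.Agent.Q224.TD
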