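import Pool.Agent.Q224.TD.Stmts

set_option autoImplicit false

open scoped BigOperators Classical

namespace Pool.Agent.Q224.TD

private lemma count_sum_parts {V : Type} (G : SimpleGraph V) (t : ℕ) (U : Finset V) (d : V → Fin t) :
    ∑ i : Fin t, arcs G (part U d i) =
      ((U ×ˢ U).filter fun p => G.Adj p.1 p.2 ∧ d p.1 = d p.2).card := by
  rw [Finset.card_eq_sum_card_fiberwise (f := fun p : V × V => d p.1) (t := Finset.univ)
    (fun _ _ => Finset.mem_coe.2 (Finset.mem_univ _))]
  refine Finset.sum_congr rfl fun i _ => ?_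
  unfold arcs
  congr 1
  ext p
  simp only [Finset.mem_filter, Finset.mem_product, part]
  constructor
  · rintro ⟨⟨⟨h1, h2⟩, h3, h4⟩, h5⟩
    exact ⟨⟨⟨h1, h3⟩, h5, h2.trans h4.symm⟩, h2⟩
  · rintro ⟨⟨⟨h1, h3⟩, h5, h6⟩, h2⟩
    exact ⟨⟨⟨h1, h2⟩, h3, h6.symm.trans h2⟩, h5⟩

theorem count : Count := by
  intro V G k t L U d u w j hk hu hw _ hj hL
  set Z : Finset V := Finset.univ.image u ∪ Finset.univ.image w with hZ
  have hud : ∀ i, d (u i) = i := fun i => (Finset.mem_filter.1 (hu i)).2
  have hwd : ∀ i, d (w i) = i := fun i => (Finset.mem_filter.1 (hw i)).2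
  have huU : ∀ i, u i ∈ U := fun i => (Finset.mem_filter.1 (hu i)).1
  have hwU : ∀ i, w i ∈ U := fun i => (Finset.mem_filter.1 (hw i)).1
  have huZ : ∀ i, u i ∈ Z := fun i =>
    Finset.mem_union_left _ (Finset.mem_image_of_mem _ (Finset.mem_univ _))
  have hwZ : ∀ i, w i ∈ Z := fun i =>
    Finset.mem_union_right _ (Finset.mem_image_of_mem _ (Finset.mem_univ _))
  let X : Fin t → Finset V := fun i =>
    (part U d (j i)).filter fun x => x ∉ Z ∧ (G.Adj (u i) x ∨ G.Adj (w i) x)
  have hX : ∀ i, k ≤ (X i).card + (L + 2) := by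
    intro i
    have hsub : part U d (j i) ⊆ X i ∪
        (((part U d (j i)).filter fun x => ¬ G.Adj (u i) x ∧ ¬ G.Adj (w i) x) ∪
          {u (j i), w (j i)}) := by
      intro x hx
      rw [Finset.mem_union, Finset.mem_union]
      by_cases h1 : ¬ G.Adj (u i) x ∧ ¬ G.Adj (w i) x
      · exact Or.inr (Or.inl (Finset.mem_filter.2 ⟨hx, h1⟩))
      · by_cases h2 : x ∈ Z
        · right; right
          have hdx : d x = j i := (Finset.mem_filter.1 hx).2
          rcases Finset.mem_union.1 h2 with h3 | h3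
          · obtain ⟨i', -, rfl⟩ := Finset.mem_image.1 h3
            rw [hud] at hdx
            rw [hdx]
            exact Finset.mem_insert_self _ _
          · obtain ⟨i', -, rfl⟩ := Finset.mem_image.1 h3
            rw [hwd] at hdx
            rw [hdx]
            exact Finset.mem_insert_of_mem (Finset.mem_singleton_self _)
        · left
          refine Finset.mem_filter.2 ⟨hx, h2, ?_⟩
          by_contra h3
          push Not at h3
          exact h1 h3
    have h1 := Finset.card_le_card hsub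
    have h2 := Finset.card_union_le (X i)
      (((part U d (j i)).filter fun x => ¬ G.Adj (u i) x ∧ ¬ G.Adj (w i) x) ∪ {u (j i), w (j i)})
    have h3 := Finset.card_union_le
      ((part U d (j i)).filter fun x => ¬ G.Adj (u i) x ∧ ¬ G.Adj (w i) x) {u (j i), w (j i)}
    have h4 : ({u (j i), w (j i)} : Finset V).card ≤ 2 := Finset.card_le_two
    have h5 := hL i
    rw [hk] at h1
    omega
  -- the vertex of `Z` adjacent to `x`
  let z : Fin t → V → V := fun i x => if G.Adj (u i) x then u i else w i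
  have hzd : ∀ i x, d (z i x) = i := by
    intro i x
    show d (if G.Adj (u i) x then u i else w i) = i
    split_ifs
    · exact hud i
    · exact hwd i
  have hzU : ∀ i x, z i x ∈ U := by
    intro i x
    show (if G.Adj (u i) x then u i else w i) ∈ U
    split_ifs
    · exact huU i
    · exact hwU i
  have hzZ : ∀ i x, z i x ∈ Z := by
    intro i x
    show (if G.Adj (u i) x then u i else w i) ∈ Z
    split_ifs
    · exact huZ i
    · exact hwZ i
  have hzA : ∀ i, ∀ x ∈ X i, G.Adj (z i x) x := by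
    intro i x hx
    show G.Adj (if G.Adj (u i) x then u i else w i) x
    have h1 := (Finset.mem_filter.1 hx).2.2
    split_ifs with h
    · exact h
    · exact h1.resolve_left h
  have hXU : ∀ i, ∀ x ∈ X i, x ∈ U ∧ d x = j i ∧ x ∉ Z := by
    intro i x hx
    obtain ⟨h1, h2, -⟩ := Finset.mem_filter.1 hx
    obtain ⟨h3, h4⟩ := Finset.mem_filter.1 h1
    exact ⟨h3, h4, h2⟩
  set S0 := (U ×ˢ U).filter fun p => G.Adj p.1 p.2 ∧ d p.1 = d p.2 with hS0
  set S1 := (U ×ˢ U).filter fun p => G.Adj p.1 p.2 ∧ (d p.1 ≠ d p.2 ∧ p.1 ∈ Z ∧ p.2 ∉ Z) with hS1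
  set S2 := (U ×ˢ U).filter fun p => G.Adj p.1 p.2 ∧ (d p.1 ≠ d p.2 ∧ p.1 ∉ Z ∧ p.2 ∈ Z) with hS2
  have hc1 : ∑ i, (X i).card ≤ S1.card := by
    rw [Finset.card_eq_sum_card_fiberwise (f := fun p : V × V => d p.1) (t := Finset.univ)
      (fun _ _ => Finset.mem_coe.2 (Finset.mem_univ _))]
    refine Finset.sum_le_sum fun i _ => ?_
    refine Finset.card_le_card_of_injOn (fun x => (z i x, x)) ?_ ?_
    · intro x hx
      have hx' : x ∈ X i := hx
      obtain ⟨h1, h2, h3⟩ := hXU i x hx'
      refine Finset.mem_coe.2 (Finset.mem_filter.2 ⟨Finset.mem_filter.2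
        ⟨Finset.mem_product.2 ⟨hzU i x, h1⟩, hzA i x hx', ?_, hzZ i x, h3⟩, hzd i x⟩)
      show d (z i x) ≠ d x
      rw [hzd, h2]
      exact (hj i).symm
    · intro x _ y _ h
      exact (Prod.ext_iff.1 h).2
  have hc2 : ∑ i, (X i).card ≤ S2.card := by
    rw [Finset.card_eq_sum_card_fiberwise (f := fun p : V × V => d p.2) (t := Finset.univ)
      (fun _ _ => Finset.mem_coe.2 (Finset.mem_univ _))]
    refine Finset.sum_le_sum fun i _ => ?_
    refine Finset.card_le_card_of_injOn (fun x => (x, z i x)) ?_ ?_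
    · intro x hx
      have hx' : x ∈ X i := hx
      obtain ⟨h1, h2, h3⟩ := hXU i x hx'
      refine Finset.mem_coe.2 (Finset.mem_filter.2 ⟨Finset.mem_filter.2
        ⟨Finset.mem_product.2 ⟨h1, hzU i x⟩, (hzA i x hx').symm, ?_, h3, hzZ i x⟩, hzd i x⟩)
      show d x ≠ d (z i x)
      rw [hzd, h2]
      exact hj i
    · intro x _ y _ h
      exact (Prod.ext_iff.1 h).1
  have hd1 : Disjoint S0 S1 := by
    rw [Finset.disjoint_left]
    intro p h1 h2
    exact (Finset.mem_filter.1 h2).2.2.1 (Finset.mem_filter.1 h1).2.2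
  have hd2 : Disjoint (S0 ∪ S1) S2 := by
    rw [Finset.disjoint_left]
    intro p h1 h2
    have h3 := (Finset.mem_filter.1 h2).2.2
    rcases Finset.mem_union.1 h1 with h | h
    · exact h3.1 (Finset.mem_filter.1 h).2.2
    · exact h3.2.1 (Finset.mem_filter.1 h).2.2.2.1
  have hsub : (S0 ∪ S1) ∪ S2 ⊆ (U ×ˢ U).filter fun p => G.Adj p.1 p.2 := by
    intro p hp
    rcases Finset.mem_union.1 hp with hp | hp
    · rcases Finset.mem_union.1 hp with hp | hp
      · exact Finset.mem_filter.2 ⟨(Finset.mem_filter.1 hp).1, (Finset.mem_filter.1 hp).2.1⟩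
      · exact Finset.mem_filter.2 ⟨(Finset.mem_filter.1 hp).1, (Finset.mem_filter.1 hp).2.1⟩
    · exact Finset.mem_filter.2 ⟨(Finset.mem_filter.1 hp).1, (Finset.mem_filter.1 hp).2.1⟩
  have hcard := Finset.card_le_card hsub
  rw [Finset.card_union_of_disjoint hd2, Finset.card_union_of_disjoint hd1] at hcard
  have hparts : ∑ i : Fin t, arcs G (part U d i) = S0.card := by
    rw [count_sum_parts G t U d, hS0]
  rw [hparts]
  have hsum : t * k ≤ ∑ i, (X i).card + t * (L + 2) := by
    have h1 := Finset.sum_le_sum fun i (_ : i ∈ (Finset.univ : Finset (Fin t))) => hX i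
    rw [Finset.sum_add_distrib, Finset.sum_const, Finset.sum_const, Finset.card_univ,
      Fintype.card_fin, smul_eq_mul, smul_eq_mul] at h1
    exact h1
  unfold arcs
  have h2 : 2 * t * k = 2 * (t * k) := by ring
  have h3 : 2 * t * (L + 2) = 2 * (t * (L + 2)) := by ring
  rw [h2, h3]
  omega

end Pool.Agent.Q224.TD
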