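import Pool.Agent.Q224.TD.Stmts

set_option autoImplicit false

open scoped BigOperators Classical

namespace Pool.Agent.Q224.TD

private theorem num_aux (t k n D : ℕ) (ht : 2 ≤ t) (hk : 4000 * t ^ 8 ≤ k)
    (hn : k * t ≤ n + 4 * t ^ 2) (hD : 4 * t * D < 4 * t * k + k) :
    (3 * t - 4) * n < (3 * t - 1) * (n - 1 - D) := by
  obtain ⟨s, rfl⟩ : ∃ s, t = s + 2 := ⟨t - 2, by omega⟩
  have e1 : 3 * (s + 2) - 4 = 3 * s + 2 := by omega
  have e2 : 3 * (s + 2) - 1 = 3 * s + 5 := by omega
  rw [e1, e2]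
  have hk3 : 4000 * (s + 2) ^ 3 ≤ k := by
    refine le_trans ?_ hk
    apply Nat.mul_le_mul_left
    exact Nat.pow_le_pow_right (by omega) (by norm_num)
  have key : (3 * s + 5) * (1 + D) < 3 * n := by
    have h1 : 4 * (s + 2) * ((3 * s + 5) * (1 + D)) < 4 * (s + 2) * (3 * n) := by
      have h2 : (3 * s + 5) * (4 * (s + 2) * D) ≤ (3 * s + 5) * (4 * (s + 2) * k + k) :=
        Nat.mul_le_mul_left _ hD.le
      have h3 : 12 * (s + 2) * (k * (s + 2)) ≤ 12 * (s + 2) * (n + 4 * (s + 2) ^ 2) :=
        Nat.mul_le_mul_left _ hn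
      nlinarith [Nat.zero_le s, Nat.zero_le k]
    exact lt_of_mul_lt_mul_left h1 (Nat.zero_le _)
  have hle : 1 + D ≤ n := by nlinarith
  obtain ⟨m, rfl⟩ : ∃ m, n = m + (1 + D) := ⟨n - (1 + D), by omega⟩
  have e3 : m + (1 + D) - 1 - D = m := by omega
  rw [e3]
  nlinarith

/-- Andrasfai-Erdos-Sos for the complement on `U0`. -/
theorem cover : Cover := by
  intro V G k t U0 ht hk hcard hind hdeg
  set H : SimpleGraph {x // x ∈ U0} := (G.comap Subtype.val)ᶜ with hH
  have hadj : ∀ x y : {x // x ∈ U0}, H.Adj x y ↔ x ≠ y ∧ ¬ G.Adj x.1 y.1 := by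
    intro x y
    rw [hH, SimpleGraph.compl_adj, SimpleGraph.comap_adj]
  have hfree : H.CliqueFree (t + 1) := by
    intro s hs
    have h1 : (s.map (Function.Embedding.subtype _)).card ≤ t := by
      apply hind
      · intro x hx
        rw [Finset.mem_map] at hx
        obtain ⟨y, _, rfl⟩ := hx
        exact y.2
      · intro x hx y hy hxy
        rw [Finset.mem_map] at hx hy
        obtain ⟨a, ha, rfl⟩ := hx
        obtain ⟨b, hb, rfl⟩ := hy
        have hne : a ≠ b := by
          rintro rfl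
          exact G.loopless.irrefl _ hxy
        have := hs.isClique ha hb hne
        exact ((hadj a b).1 this).2 hxy
    rw [Finset.card_map, hs.card_eq] at h1
    omega
  set n := U0.card with hn
  have hcn : Fintype.card {x // x ∈ U0} = n := Fintype.card_coe U0
  have ht0 : 0 < t := by omega
  have hk3 : 4000 * t ^ 3 ≤ k := by
    refine le_trans ?_ hk
    apply Nat.mul_le_mul_left
    exact Nat.pow_le_pow_right (by omega) (by norm_num)
  have hn0 : 0 < n := by
    by_contra h0
    have : n = 0 := by omega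
    rw [this, zero_add] at hcard
    have h4 : 4 * t ^ 2 < k * t := by
      have h5 : 1 ≤ t ^ 3 := Nat.one_le_pow _ _ ht0
      have h6 : t ^ 2 ≤ t ^ 3 := Nat.pow_le_pow_right ht0 (by norm_num)
      have h7 : k ≤ k * t := Nat.le_mul_of_pos_right k ht0
      omega
    omega
  have hne : Nonempty {x // x ∈ U0} := by
    obtain ⟨x, hx⟩ := Finset.card_pos.1 hn0
    exact ⟨⟨x, hx⟩⟩
  have hdegH : ∀ v : {x // x ∈ U0}, n ≤ H.degree v + 1 + dg G U0 v.1 := by
    intro v
    have hsub : U0 ⊆ (((H.neighborFinset v).map (Function.Embedding.subtype _)) ∪ {v.1}) ∪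
        (U0.filter fun w => G.Adj v.1 w) := by
      intro x hx
      rw [Finset.mem_union, Finset.mem_union]
      by_cases h1 : G.Adj v.1 x
      · right; exact Finset.mem_filter.2 ⟨hx, h1⟩
      · left
        by_cases h2 : x = v.1
        · right; rw [h2]; exact Finset.mem_singleton_self _
        · left
          rw [Finset.mem_map]
          refine ⟨⟨x, hx⟩, ?_, rfl⟩
          rw [SimpleGraph.mem_neighborFinset, hadj]
          refine ⟨?_, h1⟩
          intro h
          exact h2 (by rw [h])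
    have h3 := (Finset.card_le_card hsub).trans ((Finset.card_union_le _ _).trans
      (Nat.add_le_add_right (Finset.card_union_le _ _) _))
    rw [Finset.card_map, Finset.card_singleton, SimpleGraph.card_neighborFinset_eq_degree] at h3
    exact h3
  -- the largest degree into `U0`
  obtain ⟨v0, hv0⟩ := SimpleGraph.exists_minimal_degree_vertex H
  have hcol : H.Colorable t := by
    apply SimpleGraph.colorable_of_cliqueFree_lt_minDegree hfree
    rw [hcn, Nat.div_lt_iff_lt_mul (by omega), hv0]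
    have h1 := num_aux t k n (dg G U0 v0.1) ht hk hcard (hdeg v0.1 v0.2)
    have h2 := hdegH v0
    calc (3 * t - 4) * n < (3 * t - 1) * (n - 1 - dg G U0 v0.1) := h1
      _ ≤ (3 * t - 1) * H.degree v0 := Nat.mul_le_mul_left _ (by omega)
      _ = _ := Nat.mul_comm _ _
  obtain ⟨C⟩ := hcol
  refine ⟨fun x => if h : x ∈ U0 then C ⟨x, h⟩ else ⟨0, ht0⟩, fun x hx y hy hxy hc => ?_⟩
  simp only [hx, hy, dif_pos] at hc
  by_contra hG
  have h1 : H.Adj ⟨x, hx⟩ ⟨y, hy⟩ := by
    rw [hadj]
    exact ⟨fun h => hxy (congrArg Subtype.val h), hG⟩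
  exact C.valid h1 hc

end Pool.Agent.Q224.TD
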