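import Pool.Agent.Q224.TD.Stmts

set_option autoImplicit false

open scoped BigOperators Classical

namespace Pool.Agent.Q224.TD

private theorem crossA1 {V : Type} (G : SimpleGraph V) {t : ℕ} (U0 : Finset V) (c : V → Fin t) :
    ∑ l : Fin t, arcs G (part U0 c l) =
      ((U0 ×ˢ U0).filter (fun p => G.Adj p.1 p.2 ∧ c p.1 = c p.2)).card := by
  rw [Finset.card_eq_sum_card_fiberwise (f := fun p : V × V => c p.1) (t := Finset.univ)
    (fun _ _ => Finset.mem_coe.2 (Finset.mem_univ _))]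
  refine Finset.sum_congr rfl fun l _ => ?_
  unfold arcs part
  congr 1
  ext p
  simp only [Finset.mem_filter, Finset.mem_product]
  constructor
  · rintro ⟨⟨⟨h1, h2⟩, h3, h4⟩, h5⟩
    exact ⟨⟨⟨h1, h3⟩, h5, h2.trans h4.symm⟩, h2⟩
  · rintro ⟨⟨⟨h1, h3⟩, h5, h6⟩, h2⟩
    exact ⟨⟨⟨h1, h2⟩, h3, h6.symm.trans h2⟩, h5⟩

private theorem crossA2 {V : Type} (G : SimpleGraph V) {t : ℕ} (U0 : Finset V) (c : V → Fin t)
    (i j : Fin t) (hij : i ≠ j) :
    (∑ l : Fin t, arcs G (part U0 c l)) + cr G (part U0 c i) (part U0 c j) ≤ arcs G U0 := by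
  rw [crossA1]
  have h2 : cr G (part U0 c i) (part U0 c j) ≤
      ((U0 ×ˢ U0).filter (fun p => G.Adj p.1 p.2 ∧ ¬ c p.1 = c p.2)).card := by
    unfold cr part
    refine Finset.card_le_card ?_
    intro p hp
    simp only [Finset.mem_filter, Finset.mem_product] at hp ⊢
    obtain ⟨⟨⟨h1, h2⟩, h3, h4⟩, h5⟩ := hp
    refine ⟨⟨h1, h3⟩, h5, ?_⟩
    rw [h2, h4]
    exact hij
  have h3 : ((U0 ×ˢ U0).filter (fun p => G.Adj p.1 p.2 ∧ c p.1 = c p.2)).card +
      ((U0 ×ˢ U0).filter (fun p => G.Adj p.1 p.2 ∧ ¬ c p.1 = c p.2)).card = arcs G U0 := by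
    unfold arcs
    rw [← Finset.card_union_of_disjoint]
    · congr 1
      ext p
      simp only [Finset.mem_union, Finset.mem_filter, Finset.mem_product]
      tauto
    · rw [Finset.disjoint_left]
      intro p hp hq
      simp only [Finset.mem_filter, Finset.mem_product] at hp hq
      exact hq.2.2 hp.2.2
  omega

private theorem crossA3 {V : Type} (G : SimpleGraph V) {t : ℕ} (U0 : Finset V) (c : V → Fin t)
    (hc : ∀ x ∈ U0, ∀ y ∈ U0, x ≠ y → c x = c y → G.Adj x y) (l : Fin t) :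
    (arcs G (part U0 c l) : ℤ) = ((part U0 c l).card : ℤ) ^ 2 - (part U0 c l).card := by
  have h1 : arcs G (part U0 c l) = (part U0 c l).offDiag.card := by
    unfold arcs
    congr 1
    ext p
    simp only [Finset.mem_filter, Finset.mem_product, Finset.mem_offDiag]
    constructor
    · rintro ⟨⟨h1, h2⟩, h3⟩
      exact ⟨h1, h2, h3.ne⟩
    · rintro ⟨h1, h2, h3⟩
      refine ⟨⟨h1, h2⟩, ?_⟩
      unfold part at h1 h2
      rw [Finset.mem_filter] at h1 h2
      exact hc _ h1.1 _ h2.1 h3 (h1.2.trans h2.2.symm)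
  rw [h1, Finset.offDiag_card, Nat.cast_sub (Nat.le_mul_self _)]
  push_cast
  ring

private theorem crossA4 (k t n S X A : ℤ) (ht : 2 ≤ t) (hk : 4 * t ≤ k)
    (hn1 : k * t - 4 * t ^ 2 ≤ n) (hn2 : n ≤ k * t) (h6 : n ^ 2 ≤ t * S)
    (h1 : A < (k + 1) * (k * t - 2) + 2) (h3 : S - n + X ≤ A) : X ≤ 10 * t ^ 2 * k := by
  have ht0 : 0 < t := by linarith
  have hk0 : 0 < k := by linarith
  have hm0 : 0 ≤ k * t - 4 * t ^ 2 := by
    have : k * t - 4 * t ^ 2 = t * (k - 4 * t) := by ring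
    rw [this]
    exact mul_nonneg ht0.le (by linarith)
  have hsq : (k * t - 4 * t ^ 2) ^ 2 ≤ n ^ 2 := pow_le_pow_left₀ hm0 hn1 2
  have h8 : S + X ≤ (k + 1) * (k * t - 2) + 2 + n := by linarith
  have h9 : t * (S + X) ≤ t * ((k + 1) * (k * t - 2) + 2 + n) :=
    mul_le_mul_of_nonneg_left h8 ht0.le
  have h10 : t * n ≤ t * (k * t) := mul_le_mul_of_nonneg_left hn2 ht0.le
  have e1 : t * ((k + 1) * (k * t - 2) + 2 + n) =
      k ^ 2 * t ^ 2 + k * t ^ 2 - 2 * k * t + t * n := by ring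
  have e2 : (k * t - 4 * t ^ 2) ^ 2 = k ^ 2 * t ^ 2 - 8 * k * t ^ 3 + 16 * t ^ 4 := by ring
  have e3 : 2 * k * t ^ 2 ≤ 2 * k * t ^ 3 := by
    have h : 0 ≤ 2 * k * t ^ 2 * (t - 1) := mul_nonneg (by positivity) (by linarith)
    have : 2 * k * t ^ 2 * (t - 1) = 2 * k * t ^ 3 - 2 * k * t ^ 2 := by ring
    linarith
  have e4 : 0 ≤ 2 * k * t := by positivity
  have e5 : 0 ≤ 16 * t ^ 4 := by positivity
  have e6 : t * (S + X) = t * S + t * X := by ring
  have e7 : t * (k * t) = k * t ^ 2 := by ring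
  have e8 : t * (10 * t ^ 2 * k) = 10 * k * t ^ 3 := by ring
  have h11 : t * X ≤ t * (10 * t ^ 2 * k) := by linarith
  exact le_of_mul_le_mul_left h11 ht0

theorem cross : Cross := by
  intro V G k t U U0 c ht hk hU hsub hU0 hSp hc i j hij
  have ht8 : t ≤ t ^ 8 := Nat.le_self_pow (by norm_num) t
  have hk4 : 4 * t ≤ k := by omega
  have hk3 : 3 ≤ k := by omega
  have hU3 : 3 ≤ U.card := by
    rw [hU]
    nlinarith
  have h1 := hSp U (Finset.Subset.refl _) hU3
  rw [hU] at h1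
  have h2 : arcs G U0 ≤ arcs G U := by
    unfold arcs
    exact Finset.card_le_card (Finset.filter_subset_filter _ (Finset.product_subset_product hsub hsub))
  have h3 := crossA2 G U0 c i j hij
  have h4 : ∑ l : Fin t, (part U0 c l).card = U0.card := by
    unfold part
    rw [← Finset.card_eq_sum_card_fiberwise (f := c) (t := Finset.univ)
      (fun _ _ => Finset.mem_coe.2 (Finset.mem_univ _))]
  have h5 : ((∑ l : Fin t, arcs G (part U0 c l) : ℕ) : ℤ) =
      (∑ l : Fin t, ((part U0 c l).card : ℤ) ^ 2) - U0.card := by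
    rw [Nat.cast_sum, Finset.sum_congr rfl (fun l _ => crossA3 G U0 c hc l), Finset.sum_sub_distrib,
      ← Nat.cast_sum, h4]
  have h6 : (U0.card : ℤ) ^ 2 ≤ t * ∑ l : Fin t, ((part U0 c l).card : ℤ) ^ 2 := by
    have := sq_sum_le_card_mul_sum_sq (s := (Finset.univ : Finset (Fin t)))
      (f := fun l => ((part U0 c l).card : ℤ))
    rw [← Nat.cast_sum, h4] at this
    simpa using this
  have h7 : U0.card ≤ k * t := by
    rw [← hU]
    exact Finset.card_le_card hsub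
  have h3' : ((∑ l : Fin t, arcs G (part U0 c l) : ℕ) : ℤ) +
      (cr G (part U0 c i) (part U0 c j) : ℤ) ≤ (arcs G U : ℤ) := by
    have := h3.trans h2
    exact_mod_cast this
  have hn1 : (k : ℤ) * t - 4 * (t : ℤ) ^ 2 ≤ (U0.card : ℤ) := by
    have : ((k * t : ℕ) : ℤ) ≤ ((U0.card + 4 * t ^ 2 : ℕ) : ℤ) := by exact_mod_cast hU0
    push_cast at this
    linarith
  have hn2 : (U0.card : ℤ) ≤ (k : ℤ) * t := by exact_mod_cast h7
  have ht' : (2 : ℤ) ≤ t := by exact_mod_cast ht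
  have hk' : (4 : ℤ) * t ≤ k := by exact_mod_cast hk4
  push_cast at h1
  have h12 := crossA4 (k : ℤ) (t : ℤ) (U0.card : ℤ) _ _ (arcs G U : ℤ) ht' hk' hn1 hn2 h6 h1
    (by rw [h5] at h3'; exact h3')
  exact_mod_cast h12

end Pool.Agent.Q224.TD
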