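import Pool.Agent.Q224.TD.Stmts

set_option autoImplicit false

open scoped BigOperators Classical

namespace Pool.Agent.Q224.TD

private theorem arcs_split {V : Type} (G : SimpleGraph V) (t : ℕ) (U : Finset V) (d : V → Fin t)
    (i j : Fin t) (hij : i ≠ j) :
    (∑ i : Fin t, arcs G (part U d i)) + cr G (part U d i) (part U d j) ≤ arcs G U := by
  classical
  obtain ⟨S, hS⟩ : ∃ S, S = (U ×ˢ U).filter fun p : V × V => G.Adj p.1 p.2 := ⟨_, rfl⟩
  have hmem : ∀ p, p ∈ S ↔ (p.1 ∈ U ∧ p.2 ∈ U) ∧ G.Adj p.1 p.2 := by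
    intro p
    rw [hS, Finset.mem_filter, Finset.mem_product]
  have hcard : arcs G U = (S.filter fun p => d p.1 = d p.2).card +
      (S.filter fun p => ¬ d p.1 = d p.2).card := by
    unfold arcs
    rw [← hS]
    exact (Finset.card_filter_add_card_filter_not _).symm
  have h1 : (∑ i : Fin t, arcs G (part U d i)) = (S.filter fun p => d p.1 = d p.2).card := by
    rw [Finset.card_eq_sum_card_fiberwise (f := fun p : V × V => d p.1) (t := Finset.univ)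
      (fun _ _ => Finset.mem_coe.2 (Finset.mem_univ _))]
    refine Finset.sum_congr rfl fun i _ => ?_
    unfold arcs
    congr 1
    ext p
    simp only [Finset.mem_filter, Finset.mem_product, part, hmem]
    constructor
    · rintro ⟨⟨⟨h1, h2⟩, h3, h4⟩, h5⟩
      exact ⟨⟨⟨⟨h1, h3⟩, h5⟩, h2.trans h4.symm⟩, h2⟩
    · rintro ⟨⟨⟨⟨h1, h3⟩, h5⟩, h6⟩, h2⟩
      exact ⟨⟨⟨h1, h2⟩, h3, h6.symm.trans h2⟩, h5⟩
  have h2 : cr G (part U d i) (part U d j) ≤ (S.filter fun p => ¬ d p.1 = d p.2).card := by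
    unfold cr
    apply Finset.card_le_card
    intro p hp
    simp only [Finset.mem_filter, Finset.mem_product, part] at hp
    obtain ⟨⟨⟨h1, h2⟩, h3, h4⟩, h5⟩ := hp
    rw [Finset.mem_filter, hmem]
    refine ⟨⟨⟨h1, h3⟩, h5⟩, ?_⟩
    rw [h2, h4]
    exact hij
  omega

private theorem ZZ_le (t k : ℕ) (ht : 2 ≤ t) (hk : 4000 * t ^ 8 ≤ k) : ZZ t k ≤ k := by
  have hs1 : 63 * t ^ 4 ≤ Nat.sqrt k := by
    rw [Nat.le_sqrt]
    nlinarith [hk, Nat.zero_le (t ^ 8)]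
  have hs2 : Nat.sqrt k * Nat.sqrt k ≤ k := Nat.sqrt_le k
  have ht4 : 16 ≤ t ^ 4 := by
    calc 16 = 2 ^ 4 := by norm_num
      _ ≤ t ^ 4 := Nat.pow_le_pow_left ht 4
  obtain ⟨s, hs⟩ : ∃ s, s = Nat.sqrt k := ⟨_, rfl⟩
  obtain ⟨a, ha⟩ : ∃ a, a = t ^ 4 := ⟨_, rfl⟩
  have e : ZZ t k = 32 * a * (s + 2) := by
    unfold ZZ LL
    rw [hs, ha]
    ring
  rw [← hs, ← ha] at hs1
  rw [← hs] at hs2
  rw [← ha] at ht4
  rw [e]
  refine le_trans ?_ hs2
  nlinarith [Nat.mul_le_mul hs1 (le_refl s), Nat.mul_le_mul ht4 (le_refl s)]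

theorem cross2 : Cross2 := by
  intro V G k t U d ht hk hU hSp hpart hsum i j hij
  have h1 := arcs_split G t U d i j hij
  have h2 := ZZ_le t k ht hk
  have ht8 : 1 ≤ t ^ 8 := Nat.one_le_pow _ _ (by omega)
  have hk1 : 4000 ≤ k := by omega
  have h3 : 3 ≤ U.card := by
    rw [hU]
    nlinarith
  have h4 := hSp U (Finset.Subset.refl U) h3
  rw [hU] at h4
  have h5 : ((∑ i : Fin t, arcs G (part U d i) : ℕ) : ℤ) +
      (cr G (part U d i) (part U d j) : ℤ) ≤ (arcs G U : ℤ) := by exact_mod_cast h1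
  have h6 : (t : ℤ) * ((k : ℤ) * ((k : ℤ) - 1)) ≤
      ((∑ i : Fin t, arcs G (part U d i) : ℕ) : ℤ) + (ZZ t k : ℤ) := by
    have : (((t * (k * (k - 1)) : ℕ)) : ℤ) ≤
      (((∑ i : Fin t, arcs G (part U d i)) + ZZ t k : ℕ) : ℤ) := by exact_mod_cast hsum
    have hk' : ((k - 1 : ℕ) : ℤ) = (k : ℤ) - 1 := by
      rw [Nat.cast_sub (by omega)]
      rfl
    rw [Nat.cast_mul, Nat.cast_mul, hk'] at this
    rw [Nat.cast_add] at this
    exact this
  have h7 : (ZZ t k : ℤ) ≤ (k : ℤ) := by exact_mod_cast h2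
  have h8 : ((k * t : ℕ) : ℤ) = (k : ℤ) * (t : ℤ) := by push_cast; rfl
  rw [h8] at h4
  have h9 : (cr G (part U d i) (part U d j) : ℤ) ≤ 3 * (k : ℤ) * (t : ℤ) := by
    have hkt : 0 ≤ (k : ℤ) * (t : ℤ) := by positivity
    have hk0 : (0 : ℤ) ≤ (k : ℤ) := by positivity
    nlinarith [h4, h5, h6, h7, hkt, hk0]
  exact_mod_cast h9

end Pool.Agent.Q224.TD
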