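import Pool.Agent.Q224.TD.Stmts

/-! # Proof of `FewHigh` -/

set_option autoImplicit false

open scoped BigOperators Classical

namespace Pool.Agent.Q224.TD

private theorem arcs_eq_sum {V : Type} (G : SimpleGraph V) (U : Finset V) :
    arcs G U = ∑ v ∈ U, dg G U v := by
  unfold arcs dg
  rw [Finset.card_filter, Finset.sum_product]
  apply Finset.sum_congr rfl
  intro v _
  rw [Finset.card_filter]

theorem fewHigh : FewHigh := by
  intro V G k t U hk ht hU hSp hdeg
  have harcs := arcs_eq_sum G U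
  have hcard : 3 ≤ U.card := by rw [hU]; nlinarith
  have h1 := hSp U (Finset.Subset.refl _) hcard
  rw [hU] at h1
  set S := U.filter (fun v => 4 * t * k + k ≤ 4 * t * dg G U v) with hS
  have h2 : (S.card : ℤ) * k ≤ ∑ v ∈ U, (4 * t * (dg G U v : ℤ) - 4 * t * k) := by
    calc (S.card : ℤ) * k = ∑ v ∈ S, (k : ℤ) := by rw [Finset.sum_const, nsmul_eq_mul]
      _ ≤ ∑ v ∈ S, (4 * t * (dg G U v : ℤ) - 4 * t * k) := by
          apply Finset.sum_le_sum
          intro v hv
          have h5 := (Finset.mem_filter.1 hv).2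
          have h3 : ((4 * t * k + k : ℕ) : ℤ) ≤ ((4 * t * dg G U v : ℕ) : ℤ) := by exact_mod_cast h5
          push_cast at h3
          linarith
      _ ≤ _ := by
          apply Finset.sum_le_sum_of_subset_of_nonneg (Finset.filter_subset _ _)
          intro v hv _
          have h5 := hdeg v hv
          have h3 : (k : ℤ) ≤ dg G U v := by exact_mod_cast h5
          have h6 : (4 * t : ℤ) * k ≤ 4 * t * dg G U v := mul_le_mul_of_nonneg_left h3 (by positivity)
          linarith
  have h4 : ∑ v ∈ U, (4 * t * (dg G U v : ℤ) - 4 * t * k) =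
      4 * t * (arcs G U : ℤ) - 4 * t * k * (k * t) := by
    rw [Finset.sum_sub_distrib, Finset.sum_const, hU, harcs, ← Finset.mul_sum]
    push_cast
    simp only [smul_eq_mul, nsmul_eq_mul]
    push_cast
    ring
  rw [h4] at h2
  have ht0 : (0 : ℤ) < 4 * t := by positivity
  have hk0 : (0 : ℤ) < k := by positivity
  have h7 : (4 * t : ℤ) * (arcs G U : ℤ) < 4 * t * (((k : ℤ) + 1) * (((k * t : ℕ) : ℤ) - 2) + 2) :=
    mul_lt_mul_of_pos_left h1 ht0
  push_cast at h7
  have h8 : (S.card : ℤ) * k < (4 * t ^ 2 + 1 : ℤ) * k := by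
    have : (0 : ℤ) ≤ 8 * t * k := by positivity
    nlinarith
  have h9 : (S.card : ℤ) < 4 * t ^ 2 + 1 := lt_of_mul_lt_mul_right h8 hk0.le
  have h10 : S.card < 4 * t ^ 2 + 1 := by exact_mod_cast h9
  omega

end Pool.Agent.Q224.TD
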