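import Pool.Agent.Q224.TD.Stmts

/-!
# Project TD: the final theorem
-/

set_option autoImplicit false

open scoped BigOperators Classical

namespace Pool.Agent.Q224.TD

theorem verts_induce {V : Type} (G : SimpleGraph V) (W : Finset V) :
    ((⊤ : G.Subgraph).induce (W : Set V)).verts.ncard = W.card := by
  rw [SimpleGraph.Subgraph.induce_verts, Set.ncard_coe_finset]

theorem dens_of_ge {v e k a : ℕ} (hv : 3 ≤ v) (h2 : 2 * e = a)
    (h : ((k : ℤ) + 1) * ((v : ℤ) - 2) + 2 ≤ (a : ℤ)) :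
    ((k : ℝ) + 1) / 2 ≤ ((e : ℝ) - 1) / ((v : ℝ) - 2) := by
  have hv' : (3 : ℝ) ≤ v := by exact_mod_cast hv
  have h2' : (2 : ℝ) * e = a := by exact_mod_cast h2
  have h' : ((k : ℝ) + 1) * ((v : ℝ) - 2) + 2 ≤ (a : ℝ) := by exact_mod_cast h
  rw [div_le_div_iff₀ (by norm_num) (by linarith)]
  linarith

theorem dens_of_le {v e k a : ℕ} (hv : 3 ≤ v) (h2 : 2 * e ≤ a)
    (h : (a : ℤ) ≤ ((k : ℤ) + 1) * ((v : ℤ) - 2) + 2) :
    ((e : ℝ) - 1) / ((v : ℝ) - 2) ≤ ((k : ℝ) + 1) / 2 := by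
  have hv' : (3 : ℝ) ≤ v := by exact_mod_cast hv
  have h2' : (2 : ℝ) * e ≤ a := by exact_mod_cast h2
  have h' : (a : ℝ) ≤ ((k : ℝ) + 1) * ((v : ℝ) - 2) + 2 := by exact_mod_cast h
  rw [div_le_div_iff₀ (by linarith) (by norm_num)]
  linarith

theorem final (hlow : Lower) (hbf : BlocksFree) (hbs : BlocksSp) (hbe : BlocksEq) (hsl : SubLe)
    (hse : SubEq) : Final := by
  intro r k hr hk
  obtain ⟨t, rfl⟩ : ∃ t, r = t + 1 := ⟨r - 1, by omega⟩
  rw [Nat.add_sub_cancel] at hk ⊢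
  have ht : 2 ≤ t := by omega
  have hk1 : 4000 ≤ k := by
    have h1 : 1 ≤ t ^ 8 := Nat.one_le_pow _ _ (by omega)
    nlinarith
  have hle : ∀ F : (blocks k t).Subgraph, 3 ≤ F.verts.ncard →
      ((F.edgeSet.ncard : ℝ) - 1) / ((F.verts.ncard : ℝ) - 2) ≤ ((k : ℝ) + 1) / 2 := by
    intro F hF
    have e1 : F.verts.ncard = F.verts.toFinset.card := Set.ncard_eq_toFinset_card' _
    have h1 := hsl (Fin (k * t)) (blocks k t) F
    have h2 := hbs k t (by omega) F.verts.toFinset (by rw [← e1]; exact hF)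
    rw [← e1] at h2
    exact dens_of_le hF h1 h2
  refine ⟨⟨blocks k t, hbf k t (by omega), ?_, ?_⟩, ?_⟩
  · obtain ⟨W, hW1, hW2⟩ := hbe k t (by omega) (by omega)
    refine ⟨(⊤ : (blocks k t).Subgraph).induce (W : Set _), ?_, ?_⟩
    · rw [verts_induce, hW1]; omega
    · refine le_antisymm ?_ (hle _ ?_)
      · rw [verts_induce]
        have h1 := hse (Fin (k * t)) (blocks k t) W
        refine dens_of_ge (by rw [hW1]; omega) h1 ?_
        rw [hW2, hW1]
        have h3 : ((k * (k - 1) : ℕ) : ℤ) = (k : ℤ) * ((k : ℤ) - 1) := by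
          rw [Nat.cast_mul, Nat.cast_sub (by omega)]; norm_num
        rw [h3]
        nlinarith
      · rw [verts_induce, hW1]; omega
  · rintro d ⟨F, hF, rfl⟩
    exact hle F hF
  · rintro x ⟨G, hG, hx⟩
    have hind : Ind G Finset.univ t := by
      intro I _ hI
      by_contra hcon
      obtain ⟨J, hJ, hJc⟩ := Finset.exists_subset_card_eq (s := I) (n := t + 1) (by omega)
      refine hG J ⟨?_, hJc⟩
      intro a ha b hb hab
      rw [SimpleGraph.compl_adj]
      exact ⟨hab, hI a (hJ ha) b (hJ hb)⟩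
    have h1 := hlow (Fin (k * t)) G k t Finset.univ (by omega) hk
      (by rw [Finset.card_univ, Fintype.card_fin]) hind
    unfold Sp at h1
    push Not at h1
    obtain ⟨W, -, hW3, hW⟩ := h1
    have h2 := hse (Fin (k * t)) G W
    have h3 := dens_of_ge (k := k) hW3 h2 hW
    refine h3.trans (hx.2 ⟨(⊤ : G.Subgraph).induce (W : Set _), ?_, ?_⟩)
    · rw [verts_induce]; exact hW3
    · rw [verts_induce]

end Pool.Agent.Q224.TD
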