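import Pool.Agent.Q224.TD.Stmts

set_option autoImplicit false

open scoped BigOperators Classical

namespace Pool.Agent.Q224.TD

private theorem hit_cr_mono {V : Type} (G : SimpleGraph V) (A B A' B' : Finset V) (hA : A ⊆ A')
    (hB : B ⊆ B') : cr G A B ≤ cr G A' B' := by
  unfold cr
  exact Finset.card_le_card (Finset.filter_subset_filter _ (Finset.product_subset_product hA hB))

theorem hit (htr : Transv) : Hit := by
  intro V G k t U d ht hk hInd hcr i u hu w hw huw hadj
  by_contra hcon
  push Not at hcon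
  set N : Fin t → Finset V := fun j => (part U d j).filter fun x => ¬ G.Adj u x ∧ ¬ G.Adj w x
    with hN
  have hNsub : ∀ j, N j ⊆ part U d j := fun j => Finset.filter_subset _ _
  have hJcard : (Finset.univ.erase i : Finset (Fin t)).card = t - 1 := by
    rw [Finset.card_erase_of_mem (Finset.mem_univ i), Finset.card_univ, Fintype.card_fin]
  have hJne : (Finset.univ.erase i : Finset (Fin t)).Nonempty := by
    rw [← Finset.card_pos, hJcard]; omega
  have hineq : (Finset.univ.erase i : Finset (Fin t)).card ^ 2 * (3 * k * t) < (LL t k) ^ 2 := by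
    rw [hJcard]
    unfold LL
    have hs : k < (Nat.sqrt k + 1) ^ 2 := by
      have := Nat.lt_succ_sqrt k
      rw [Nat.succ_eq_add_one] at this
      nlinarith
    have h1 : (t - 1) ^ 2 ≤ t ^ 2 := Nat.pow_le_pow_left (by omega) 2
    have h2 : t ≤ t ^ 2 := by nlinarith
    calc (t - 1) ^ 2 * (3 * k * t) ≤ t ^ 2 * (3 * k * t ^ 2) := by gcongr
      _ ≤ 16 * t ^ 4 * k := by nlinarith [Nat.zero_le (t ^ 4 * k)]
      _ < 16 * t ^ 4 * (Nat.sqrt k + 1) ^ 2 := by
        have : 0 < 16 * t ^ 4 := by positivity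
        exact Nat.mul_lt_mul_of_pos_left hs this
      _ = (4 * t ^ 2 * (Nat.sqrt k + 1)) ^ 2 := by ring
  obtain ⟨f, hf, hf2⟩ := htr V G (Fin t) (Finset.univ.erase i) N (LL t k) (3 * k * t) hJne
    (fun j hj => hcon j (Finset.ne_of_mem_erase hj))
    (fun a _ b _ hab => (hit_cr_mono G _ _ _ _ (hNsub a) (hNsub b)).trans (hcr a b hab)) hineq
  have hfp : ∀ j, j ≠ i → f j ∈ U ∧ d (f j) = j ∧ ¬ G.Adj u (f j) ∧ ¬ G.Adj w (f j) := by
    intro j hj
    have h := hf j (Finset.mem_erase.2 ⟨hj, Finset.mem_univ j⟩)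
    simp only [hN, part, Finset.mem_filter] at h
    exact ⟨h.1.1, h.1.2, h.2.1, h.2.2⟩
  simp only [part, Finset.mem_filter] at hu hw
  set I : Finset V := insert u (insert w ((Finset.univ.erase i).image f)) with hI
  have hinj : Set.InjOn f (Finset.univ.erase i : Finset (Fin t)) := by
    intro a ha b hb hab
    have ha' := hfp a (Finset.ne_of_mem_erase (Finset.mem_coe.1 ha))
    have hb' := hfp b (Finset.ne_of_mem_erase (Finset.mem_coe.1 hb))
    rw [← ha'.2.1, ← hb'.2.1, hab]
  have hnotin : ∀ v : V, d v = i → v ∉ (Finset.univ.erase i).image f := by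
    intro v hv hmem
    obtain ⟨j, hj, rfl⟩ := Finset.mem_image.1 hmem
    have hj' := Finset.ne_of_mem_erase hj
    exact hj' ((hfp j hj').2.1.symm.trans hv)
  have hcard : I.card = t + 1 := by
    rw [hI, Finset.card_insert_of_notMem, Finset.card_insert_of_notMem (hnotin w hw.2),
      Finset.card_image_of_injOn hinj, hJcard]
    · omega
    · rw [Finset.mem_insert, not_or]
      exact ⟨huw, hnotin u hu.2⟩
  have hsub : I ⊆ U := by
    intro x hx
    rw [hI, Finset.mem_insert, Finset.mem_insert, Finset.mem_image] at hx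
    rcases hx with rfl | rfl | ⟨j, hj, rfl⟩
    · exact hu.1
    · exact hw.1
    · exact (hfp j (Finset.ne_of_mem_erase hj)).1
  have := hInd I hsub (by
    intro x hx y hy
    rw [hI, Finset.mem_insert, Finset.mem_insert, Finset.mem_image] at hx hy
    rcases hx with rfl | rfl | ⟨j, hj, rfl⟩
    · rcases hy with rfl | rfl | ⟨j', hj', rfl⟩
      · exact G.irrefl
      · exact hadj
      · exact (hfp j' (Finset.ne_of_mem_erase hj')).2.2.1
    · rcases hy with rfl | rfl | ⟨j', hj', rfl⟩
      · exact fun h => hadj h.symm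
      · exact G.irrefl
      · exact (hfp j' (Finset.ne_of_mem_erase hj')).2.2.2
    · rcases hy with rfl | rfl | ⟨j', hj', rfl⟩
      · exact fun h => (hfp j (Finset.ne_of_mem_erase hj)).2.2.1 h.symm
      · exact fun h => (hfp j (Finset.ne_of_mem_erase hj)).2.2.2 h.symm
      · by_cases hjj : j = j'
        · subst hjj
          exact G.irrefl
        · exact hf2 j hj j' hj' hjj)
  omega

end Pool.Agent.Q224.TD
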