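import Pool.Agent.Q224.TD.Stmts

/-!
# Project TD: the lower bound and the assembly
-/

set_option autoImplicit false

open scoped BigOperators Classical

namespace Pool.Agent.Q224.TD

theorem ind_mono {V : Type} {G : SimpleGraph V} {U W : Finset V} {t : ℕ} (h : Ind G U t)
    (hW : W ⊆ U) : Ind G W t := fun I hI hi => h I (hI.trans hW) hi

theorem lower (hcl : CliqueLt) (hmd : MinDeg) (hfh : FewHigh) (hcov : Cover) (hcr : Cross)
    (has : Assign) (hpt : Parts) (hcr2 : Cross2) (hhit : Hit) (hcount : Count) (har : Arith) :
    Lower := by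
  intro V G k t
  induction t with
  | zero => intro U ht; omega
  | succ n ih =>
    intro U _ hk hU hind hsp
    have hk1 : 4000 ≤ k := by
      have h1 : 1 ≤ (n + 1) ^ 8 := Nat.one_le_pow _ _ (Nat.succ_pos n)
      nlinarith
    rcases Nat.eq_zero_or_pos n with hn | hn
    · subst hn
      have hc : ∀ x ∈ U, ∀ y ∈ U, x ≠ y → G.Adj x y := by
        intro x hx y hy hxy
        by_contra hna
        have h2 := hind {x, y} (by
          intro z hz
          rw [Finset.mem_insert, Finset.mem_singleton] at hz
          rcases hz with rfl | rfl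
          · exact hx
          · exact hy) (by
          intro a ha b hb hab
          rw [Finset.mem_insert, Finset.mem_singleton] at ha hb
          rcases ha with rfl | rfl <;> rcases hb with rfl | rfl
          · exact hab.ne rfl
          · exact hna hab
          · exact hna hab.symm
          · exact hab.ne rfl)
        rw [Finset.card_pair hxy] at h2
        omega
      have h3 := hcl V G k U U (by omega) hsp (Finset.Subset.refl U) hc
      rw [hU] at h3
      omega
    · have hkn : 4000 * n ^ 8 ≤ k :=
        le_trans (Nat.mul_le_mul_left _ (Nat.pow_le_pow_left (Nat.le_succ n) 8)) hk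
      have hih : ∀ U' : Finset V, U'.card = k * n → Ind G U' n → ¬ Sp G k U' :=
        fun U' h1 h2 => ih U' hn hkn h1 h2
      have hmin := hmd V G k n U (by omega) hn hih hU hind hsp
      have ht2 : 2 ≤ n + 1 := by omega
      have hfew := hfh V G k (n + 1) U (by omega) ht2 hU hsp hmin
      set S := U.filter fun v => 4 * (n + 1) * k + k ≤ 4 * (n + 1) * dg G U v with hS
      set U0 := U \ S with hU0
      have hsub : U0 ⊆ U := Finset.sdiff_subset
      have hcard : k * (n + 1) ≤ U0.card + 4 * (n + 1) ^ 2 := by
        have h1 := Finset.card_sdiff_add_card_eq_card (s := S) (t := U) (Finset.filter_subset _ _)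
        rw [hU] at h1
        rw [hU0]
        omega
      have hdeg : ∀ v ∈ U0, 4 * (n + 1) * dg G U0 v < 4 * (n + 1) * k + k := by
        intro v hv
        rw [hU0, Finset.mem_sdiff] at hv
        have h1 : ¬ (4 * (n + 1) * k + k ≤ 4 * (n + 1) * dg G U v) := by
          intro h
          exact hv.2 (Finset.mem_filter.2 ⟨hv.1, h⟩)
        have h2 : dg G U0 v ≤ dg G U v := Finset.card_le_card
          (Finset.filter_subset_filter _ hsub)
        have h3 := Nat.mul_le_mul_left (4 * (n + 1)) h2
        omega
      obtain ⟨c, hc⟩ := hcov V G k (n + 1) U0 ht2 hk hcard (ind_mono hind hsub) hdeg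
      have hcross := hcr V G k (n + 1) U U0 c ht2 hk hU hsub hcard hsp hc
      have hassign := has V G k (n + 1) U U0 c ht2 hsub hind hcross
      obtain ⟨d, hd1, hd2⟩ := hpt V G k (n + 1) U U0 c ht2 hk hU hsub hcard hsp hc hassign
      have hcross2 := hcr2 V G k (n + 1) U d ht2 hk hU hsp hd1 hd2
      have hne : ∀ i : Fin (n + 1), ∃ u w : V, u ∈ part U d i ∧ w ∈ part U d i ∧ u ≠ w ∧
          ¬ G.Adj u w := by
        intro i
        by_contra hcon
        push Not at hcon
        have h1 := hcl V G k U (part U d i) (by omega) hsp (Finset.filter_subset _ _)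
          (fun x hx y hy hxy => hcon x y hx hy hxy)
        rw [hd1 i] at h1
        omega
      choose u w hu hw huw hna using hne
      have hj : ∀ i : Fin (n + 1), ∃ j : Fin (n + 1), j ≠ i ∧
          ((part U d j).filter fun x => ¬ G.Adj (u i) x ∧ ¬ G.Adj (w i) x).card <
            LL (n + 1) k := fun i =>
        hhit V G k (n + 1) U d ht2 hk hind hcross2 i (u i) (hu i) (w i) (hw i) (huw i) (hna i)
      choose j hj1 hj2 using hj
      have hfin := hcount V G k (n + 1) (LL (n + 1) k) U d u w j hd1 hu hw huw hj1 hj2
      have hspU := hsp U (Finset.Subset.refl U) (by rw [hU]; nlinarith)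
      rw [hU] at hspU
      exact har k (n + 1) (arcs G U) _ ht2 hk hspU hd2 hfin

end Pool.Agent.Q224.TD
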