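import Pool.Agent.Q224.TD.Stmts

set_option autoImplicit false

open scoped BigOperators Classical

namespace Pool.Agent.Q224.TD

theorem minDeg : MinDeg := by
  intro V G k t U hk ht hind hU hI hS v hv
  by_contra hlt
  push Not at hlt
  set N : Finset V := U.filter fun w => G.Adj v w with hN
  have hNc : N.card = dg G U v := rfl
  have hins : (insert v N).card ≤ k := by
    have := Finset.card_insert_le v N
    omega
  have hsd : k * t ≤ (U \ insert v N).card := by
    have h1 := Finset.le_card_sdiff (insert v N) U
    have h2 : k * (t + 1) = k * t + k := by ring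
    omega
  obtain ⟨U', hU'sub, hU'card⟩ := Finset.exists_subset_card_eq hsd
  have hU'U : U' ⊆ U := fun x hx => (Finset.mem_sdiff.mp (hU'sub hx)).1
  refine hind U' hU'card ?_ ?_
  · intro J hJ hJi
    have hvJ : v ∉ J := by
      intro h
      have := (Finset.mem_sdiff.mp (hU'sub (hJ h))).2
      exact this (Finset.mem_insert_self v N)
    have hnv : ∀ x ∈ J, ¬ G.Adj v x := by
      intro x hx hadj
      have h := Finset.mem_sdiff.mp (hU'sub (hJ hx))
      apply h.2
      refine Finset.mem_insert_of_mem ?_
      rw [hN, Finset.mem_filter]
      exact ⟨h.1, hadj⟩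
    have := hI (insert v J) ?_ ?_
    · rw [Finset.card_insert_of_notMem hvJ] at this
      omega
    · intro x hx
      rcases Finset.mem_insert.mp hx with h | h
      · rw [h]; exact hv
      · exact hU'U (hJ h)
    · intro x hx y hy
      rcases Finset.mem_insert.mp hx with h | h
      · rcases Finset.mem_insert.mp hy with h' | h'
        · rw [h, h']; exact fun h => G.loopless.irrefl v h
        · rw [h]; exact hnv y h'
      · rcases Finset.mem_insert.mp hy with h' | h'
        · rw [h']; exact fun hh => hnv x h hh.symm
        · exact hJi x h y h'
  · intro W hW h3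
    exact hS W (hW.trans hU'U) h3

end Pool.Agent.Q224.TD
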