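import Pool.Agent.Q224.TD.Stmts
set_option autoImplicit false

open scoped BigOperators Classical

namespace Pool.Agent.Q224.TD

private noncomputable def pna {V : Type} (G : SimpleGraph V) (W : Finset V) : ℕ :=
  (W.offDiag.filter fun p => ¬ G.Adj p.1 p.2).card

private theorem parcs_add_na {V : Type} (G : SimpleGraph V) (W : Finset V) :
    arcs G W + pna G W = W.card * (W.card - 1) := by
  have h1 : (W ×ˢ W).filter (fun p => G.Adj p.1 p.2) = W.offDiag.filter (fun p => G.Adj p.1 p.2) := by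
    ext p
    simp only [Finset.mem_filter, Finset.mem_product, Finset.mem_offDiag]
    constructor
    · rintro ⟨⟨h1, h2⟩, h⟩
      exact ⟨⟨h1, h2, h.ne⟩, h⟩
    · rintro ⟨⟨h1, h2, _⟩, h⟩
      exact ⟨⟨h1, h2⟩, h⟩
  unfold arcs pna
  rw [h1, Finset.card_filter_add_card_filter_not, Finset.offDiag_card, Nat.mul_sub_one]

private theorem pna_mono {V : Type} (G : SimpleGraph V) {W W' : Finset V} (h : W ⊆ W') :
    pna G W ≤ pna G W' :=
  Finset.card_le_card (Finset.filter_subset_filter _ (Finset.offDiag_mono h))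

private theorem pzz_lt (t k : ℕ) (ht : 2 ≤ t) (hk : 4000 * t ^ 8 ≤ k) : ZZ t k < k := by
  obtain ⟨r, hr⟩ : ∃ r, r = Nat.sqrt k := ⟨_, rfl⟩
  obtain ⟨T, hT⟩ : ∃ T, T = t ^ 4 := ⟨_, rfl⟩
  have h1 : r * r ≤ k := hr ▸ Nat.sqrt_le k
  have hT8 : t ^ 8 = T * T := by rw [hT]; ring
  have hT16 : 16 ≤ T := by
    rw [hT]
    calc 16 = 2 ^ 4 := by norm_num
      _ ≤ t ^ 4 := Nat.pow_le_pow_left ht 4
  have h2 : 63 * T ≤ r := by
    rw [hr]
    apply Nat.le_sqrt.2
    calc 63 * T * (63 * T) = 3969 * (T * T) := by ring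
      _ ≤ 4000 * (T * T) := Nat.mul_le_mul_right _ (by norm_num)
      _ ≤ k := by rw [← hT8]; exact hk
  have h3 : ZZ t k = 32 * T * (r + 2) := by
    unfold ZZ LL
    rw [← hr, hT]
    ring
  rw [h3]
  refine lt_of_lt_of_le ?_ h1
  have h4 : 63 * T * r ≤ r * r := Nat.mul_le_mul_right _ h2
  nlinarith

theorem parts : Parts := by
  intro V G k t U U0 c ht hk hU hU0 hcard hSp hc hs
  have hne : Nonempty (Fin t) := ⟨⟨0, by omega⟩⟩
  choose! ι hι using hs
  obtain ⟨S, hSdef⟩ : ∃ S, S = U \ U0 := ⟨_, rfl⟩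
  obtain ⟨d, hd⟩ : ∃ d : V → Fin t, d = fun x => if x ∈ U0 then c x else ι x := ⟨_, rfl⟩
  have hd0 : ∀ x ∈ U0, d x = c x := fun x hx => by rw [hd]; simp [hx]
  have hd1 : ∀ x, x ∉ U0 → d x = ι x := fun x hx => by rw [hd]; simp [hx]
  have hS : S.card ≤ 4 * t ^ 2 := by
    have h1 := Finset.card_sdiff_add_card_eq_card hU0
    rw [← hSdef] at h1
    omega
  have hmemS : ∀ x ∈ U, x ∉ U0 → x ∈ S := fun x hx hx0 => by
    rw [hSdef]; exact Finset.mem_sdiff.2 ⟨hx, hx0⟩
  have hSmem : ∀ x ∈ S, x ∈ U ∧ x ∉ U0 := fun x hx => by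
    rw [hSdef] at hx; exact Finset.mem_sdiff.1 hx
  have hL : ∀ i : Fin t, ∀ s ∈ S.filter (fun x => d x = i), ∀ T ⊆ part U d i,
      (∀ x ∈ T, ¬ G.Adj s x) → T.card ≤ LL t k + S.card := by
    intro i s hsi T hT hTs
    obtain ⟨hsS, hsd⟩ := Finset.mem_filter.1 hsi
    obtain ⟨hsU, hsU0⟩ := hSmem s hsS
    have h1 := hι s (by rw [← hSdef]; exact hsS)
    have h2 : ι s = i := by rw [← hd1 s hsU0]; exact hsd
    rw [h2] at h1
    have hsub : T ⊆ ((part U0 c i).filter fun x => ¬ G.Adj s x) ∪ S := by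
      intro x hx
      obtain ⟨hxU, hxd⟩ := Finset.mem_filter.1 (hT hx)
      by_cases hx0 : x ∈ U0
      · apply Finset.mem_union_left
        refine Finset.mem_filter.2 ⟨Finset.mem_filter.2 ⟨hx0, ?_⟩, hTs x hx⟩
        rw [← hd0 x hx0]; exact hxd
      · exact Finset.mem_union_right _ (hmemS x hxU hx0)
    have h3 := (Finset.card_le_card hsub).trans (Finset.card_union_le _ _)
    omega
  have hna : ∀ i : Fin t, pna G (part U d i) ≤
      2 * (S.filter (fun x => d x = i)).card * (LL t k + S.card) := by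
    intro i
    obtain ⟨P, hP⟩ : ∃ P, P = part U d i := ⟨_, rfl⟩
    obtain ⟨Q, hQ⟩ : ∃ Q, Q = S.filter (fun x => d x = i) := ⟨_, rfl⟩
    have hPmem : ∀ x ∈ P, x ∈ U ∧ d x = i := fun x hx => by
      rw [hP] at hx; exact Finset.mem_filter.1 hx
    have hsub : P.offDiag.filter (fun p => ¬ G.Adj p.1 p.2) ⊆
        ((Q ×ˢ P).filter fun p => ¬ G.Adj p.1 p.2) ∪ ((P ×ˢ Q).filter fun p => ¬ G.Adj p.1 p.2) := by
      intro p hp
      obtain ⟨hp1, hp2⟩ := Finset.mem_filter.1 hp
      obtain ⟨ha, hb, hne⟩ := Finset.mem_offDiag.1 hp1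
      by_cases h1 : p.1 ∈ U0
      · by_cases h2 : p.2 ∈ U0
        · exfalso
          apply hp2
          apply hc _ h1 _ h2 hne
          rw [← hd0 _ h1, ← hd0 _ h2, (hPmem _ ha).2, (hPmem _ hb).2]
        · apply Finset.mem_union_right
          refine Finset.mem_filter.2 ⟨Finset.mem_product.2 ⟨ha, ?_⟩, hp2⟩
          rw [hQ]
          exact Finset.mem_filter.2 ⟨hmemS _ (hPmem _ hb).1 h2, (hPmem _ hb).2⟩
      · apply Finset.mem_union_left
        refine Finset.mem_filter.2 ⟨Finset.mem_product.2 ⟨?_, hb⟩, hp2⟩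
        rw [hQ]
        exact Finset.mem_filter.2 ⟨hmemS _ (hPmem _ ha).1 h1, (hPmem _ ha).2⟩
    have c1 : ((Q ×ˢ P).filter fun p => ¬ G.Adj p.1 p.2).card ≤ Q.card * (LL t k + S.card) := by
      rw [Finset.card_filter, Finset.sum_product]
      rw [← smul_eq_mul, ← Finset.sum_const]
      refine Finset.sum_le_sum fun s hs' => ?_
      rw [← Finset.card_filter]
      refine hL i s (by rw [← hQ]; exact hs') _ ?_ ?_
      · rw [← hP]; exact Finset.filter_subset _ _
      · intro x hx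
        exact (Finset.mem_filter.1 hx).2
    have c2 : ((P ×ˢ Q).filter fun p => ¬ G.Adj p.1 p.2).card ≤ Q.card * (LL t k + S.card) := by
      rw [Finset.card_filter, Finset.sum_product_right]
      rw [← smul_eq_mul, ← Finset.sum_const]
      refine Finset.sum_le_sum fun s hs' => ?_
      rw [← Finset.card_filter]
      refine hL i s (by rw [← hQ]; exact hs') _ ?_ ?_
      · rw [← hP]; exact Finset.filter_subset _ _
      · intro x hx hadj
        exact (Finset.mem_filter.1 hx).2 hadj.symm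
    have h5 := (Finset.card_le_card hsub).trans (Finset.card_union_le _ _)
    rw [← hP, ← hQ]
    unfold pna
    calc _ ≤ _ := h5
      _ ≤ Q.card * (LL t k + S.card) + Q.card * (LL t k + S.card) := Nat.add_le_add c1 c2
      _ = 2 * Q.card * (LL t k + S.card) := by ring
  have hsumS : ∑ i : Fin t, (S.filter (fun x => d x = i)).card = S.card :=
    (Finset.card_eq_sum_card_fiberwise (f := d) (t := Finset.univ) (fun x _ => Finset.mem_coe.2 (Finset.mem_univ _))).symm
  have hZZ : 2 * S.card * (LL t k + S.card) ≤ ZZ t k := by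
    unfold ZZ
    calc 2 * S.card * (LL t k + S.card) ≤ 2 * (4 * t ^ 2) * (LL t k + 4 * t ^ 2) := by gcongr
      _ = 8 * t ^ 2 * (LL t k + 4 * t ^ 2) := by ring
  have hnasum : ∑ i : Fin t, pna G (part U d i) ≤ ZZ t k := by
    refine le_trans (Finset.sum_le_sum fun i _ => hna i) ?_
    rw [← Finset.sum_mul, ← Finset.mul_sum, hsumS]
    exact hZZ
  have hle : ∀ i : Fin t, (part U d i).card ≤ k := by
    intro i
    by_contra hlt
    obtain ⟨W, hW, hWc⟩ := Finset.exists_subset_card_eq (s := part U d i) (n := k + 1) (by omega)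
    have h1 := parcs_add_na G W
    rw [hWc, Nat.add_sub_cancel] at h1
    have h2 : pna G W ≤ ZZ t k :=
      (pna_mono G hW).trans ((Finset.single_le_sum (f := fun i : Fin t => pna G (part U d i))
        (fun _ _ => Nat.zero_le _) (Finset.mem_univ i)).trans hnasum)
    have h3 := pzz_lt t k ht hk
    have hk3 : 3 ≤ k := by
      have : 1 ≤ t ^ 8 := Nat.one_le_pow _ _ (by omega)
      omega
    have h4 := hSp W (hW.trans (Finset.filter_subset _ _)) (by omega)
    rw [hWc] at h4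
    push_cast at h4
    have h5 : (arcs G W : ℤ) + (pna G W : ℤ) = ((k : ℤ) + 1) * k := by exact_mod_cast h1
    have h6 : (pna G W : ℤ) < k := by exact_mod_cast lt_of_le_of_lt h2 h3
    nlinarith
  have hsumU : ∑ i : Fin t, (part U d i).card = k * t := by
    rw [← hU]
    exact (Finset.card_eq_sum_card_fiberwise (f := d) (t := Finset.univ) (fun x _ => Finset.mem_coe.2 (Finset.mem_univ _))).symm
  have heq : ∀ i : Fin t, (part U d i).card = k := by
    have h1 : ∑ i : Fin t, (part U d i).card = ∑ _i : Fin t, k := by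
      rw [hsumU]; simp [mul_comm]
    intro i
    exact (Finset.sum_eq_sum_iff_of_le (fun i _ => hle i)).1 h1 i (Finset.mem_univ i)
  refine ⟨d, heq, ?_⟩
  have h7 : t * (k * (k - 1)) = ∑ i : Fin t, (arcs G (part U d i) + pna G (part U d i)) := by
    rw [Finset.sum_congr rfl fun i _ => (parcs_add_na G (part U d i)).trans (by rw [heq i])]
    simp
  rw [h7, Finset.sum_add_distrib]
  omega

end Pool.Agent.Q224.TD
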