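import Mathlib

/-!
# Project TD (MP_303581_co): the minimum 2-density M(k(r-1), r) = (k+1)/2 for k >= 4000 (r-1)^8

Definitions and the statements of the tasks.
-/

set_option autoImplicit false

open scoped BigOperators Classical

namespace Pool.Agent.Q224.TD

variable {V : Type}

/-- Ordered adjacent pairs in `W` (twice the number of edges). -/
noncomputable def arcs (G : SimpleGraph V) (W : Finset V) : ℕ :=
  ((W ×ˢ W).filter fun p => G.Adj p.1 p.2).card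

/-- Adjacent pairs from `A` to `B`. -/
noncomputable def cr (G : SimpleGraph V) (A B : Finset V) : ℕ :=
  ((A ×ˢ B).filter fun p => G.Adj p.1 p.2).card

/-- Independent subsets of `U` have at most `t` elements. -/
def Ind (G : SimpleGraph V) (U : Finset V) (t : ℕ) : Prop :=
  ∀ I ⊆ U, (∀ x ∈ I, ∀ y ∈ I, ¬ G.Adj x y) → I.card ≤ t

/-- All 2-densities inside `U` are less than `(k+1)/2`. -/
def Sp (G : SimpleGraph V) (k : ℕ) (U : Finset V) : Prop :=
  ∀ W ⊆ U, 3 ≤ W.card → (arcs G W : ℤ) < ((k : ℤ) + 1) * ((W.card : ℤ) - 2) + 2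

/-- Degree into `U`. -/
noncomputable def dg (G : SimpleGraph V) (U : Finset V) (v : V) : ℕ :=
  (U.filter fun w => G.Adj v w).card

/-- The part of `U` with colour `i`. -/
noncomputable def part {t : ℕ} (U : Finset V) (c : V → Fin t) (i : Fin t) : Finset V :=
  U.filter fun x => c x = i

/-- The parameter `L`. -/
def LL (t k : ℕ) : ℕ := 4 * t ^ 2 * (Nat.sqrt k + 1)

/-- The bound for the number of ordered non-adjacent pairs inside the parts. -/
def ZZ (t k : ℕ) : ℕ := 8 * t ^ 2 * (LL t k + 4 * t ^ 2)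

/-! ### Tasks -/

/-- Cliques have at most `k - 1` elements. -/
def CliqueLt : Prop := ∀ (V : Type) (G : SimpleGraph V) (k : ℕ) (U C : Finset V), 3 ≤ k →
  Sp G k U → C ⊆ U → (∀ x ∈ C, ∀ y ∈ C, x ≠ y → G.Adj x y) → C.card < k

/-- Minimum degree from the induction hypothesis. -/
def MinDeg : Prop := ∀ (V : Type) (G : SimpleGraph V) (k t : ℕ) (U : Finset V), 1 ≤ k → 1 ≤ t →
  (∀ U' : Finset V, U'.card = k * t → Ind G U' t → ¬ Sp G k U') →
  U.card = k * (t + 1) → Ind G U (t + 1) → Sp G k U → ∀ v ∈ U, k ≤ dg G U v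

/-- Few vertices of high degree. -/
def FewHigh : Prop := ∀ (V : Type) (G : SimpleGraph V) (k t : ℕ) (U : Finset V), 3 ≤ k → 2 ≤ t →
  U.card = k * t → Sp G k U → (∀ v ∈ U, k ≤ dg G U v) →
  (U.filter fun v => 4 * t * k + k ≤ 4 * t * dg G U v).card ≤ 4 * t ^ 2

/-- Andrasfai-Erdos-Sos for the complement on `U0`. -/
def Cover : Prop := ∀ (V : Type) (G : SimpleGraph V) (k t : ℕ) (U0 : Finset V), 2 ≤ t →
  4000 * t ^ 8 ≤ k → k * t ≤ U0.card + 4 * t ^ 2 → Ind G U0 t →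
  (∀ v ∈ U0, 4 * t * dg G U0 v < 4 * t * k + k) →
  ∃ c : V → Fin t, ∀ x ∈ U0, ∀ y ∈ U0, x ≠ y → c x = c y → G.Adj x y

/-- Independent transversals. -/
def Transv : Prop := ∀ (V : Type) (G : SimpleGraph V) (ι : Type) (J : Finset ι)
  (N : ι → Finset V) (L E : ℕ), J.Nonempty → (∀ j ∈ J, L ≤ (N j).card) →
  (∀ i ∈ J, ∀ j ∈ J, i ≠ j → cr G (N i) (N j) ≤ E) → J.card ^ 2 * E < L ^ 2 →
  ∃ f : ι → V, (∀ j ∈ J, f j ∈ N j) ∧ ∀ i ∈ J, ∀ j ∈ J, i ≠ j → ¬ G.Adj (f i) (f j)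

/-- Arcs between different parts of a covering by `t` cliques. -/
def Cross : Prop := ∀ (V : Type) (G : SimpleGraph V) (k t : ℕ) (U U0 : Finset V)
  (c : V → Fin t), 2 ≤ t → 4000 * t ^ 8 ≤ k → U.card = k * t → U0 ⊆ U →
  k * t ≤ U0.card + 4 * t ^ 2 → Sp G k U →
  (∀ x ∈ U0, ∀ y ∈ U0, x ≠ y → c x = c y → G.Adj x y) →
  ∀ i j : Fin t, i ≠ j → cr G (part U0 c i) (part U0 c j) ≤ 10 * t ^ 2 * k

/-- Every remaining vertex misses few vertices of some clique. -/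
def Assign : Prop := ∀ (V : Type) (G : SimpleGraph V) (k t : ℕ) (U U0 : Finset V)
  (c : V → Fin t), 2 ≤ t → U0 ⊆ U → Ind G U t →
  (∀ i j : Fin t, i ≠ j → cr G (part U0 c i) (part U0 c j) ≤ 10 * t ^ 2 * k) →
  ∀ s ∈ U \ U0, ∃ i : Fin t, ((part U0 c i).filter fun x => ¬ G.Adj s x).card < LL t k

/-- The partition into `t` parts of `k` vertices with few non-adjacent pairs. -/
def Parts : Prop := ∀ (V : Type) (G : SimpleGraph V) (k t : ℕ) (U U0 : Finset V)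
  (c : V → Fin t), 2 ≤ t → 4000 * t ^ 8 ≤ k → U.card = k * t → U0 ⊆ U →
  k * t ≤ U0.card + 4 * t ^ 2 → Sp G k U →
  (∀ x ∈ U0, ∀ y ∈ U0, x ≠ y → c x = c y → G.Adj x y) →
  (∀ s ∈ U \ U0, ∃ i : Fin t, ((part U0 c i).filter fun x => ¬ G.Adj s x).card < LL t k) →
  ∃ d : V → Fin t, (∀ i, (part U d i).card = k) ∧
    t * (k * (k - 1)) ≤ (∑ i : Fin t, arcs G (part U d i)) + ZZ t k

/-- Arcs between the parts. -/
def Cross2 : Prop := ∀ (V : Type) (G : SimpleGraph V) (k t : ℕ) (U : Finset V)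
  (d : V → Fin t), 2 ≤ t → 4000 * t ^ 8 ≤ k → U.card = k * t → Sp G k U →
  (∀ i, (part U d i).card = k) →
  t * (k * (k - 1)) ≤ (∑ i : Fin t, arcs G (part U d i)) + ZZ t k →
  ∀ i j : Fin t, i ≠ j → cr G (part U d i) (part U d j) ≤ 3 * k * t

/-- Two non-adjacent vertices of a part dominate almost all of another part. -/
def Hit : Prop := ∀ (V : Type) (G : SimpleGraph V) (k t : ℕ) (U : Finset V)
  (d : V → Fin t), 2 ≤ t → 4000 * t ^ 8 ≤ k → Ind G U t →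
  (∀ i j : Fin t, i ≠ j → cr G (part U d i) (part U d j) ≤ 3 * k * t) →
  ∀ i : Fin t, ∀ u ∈ part U d i, ∀ w ∈ part U d i, u ≠ w → ¬ G.Adj u w →
    ∃ j : Fin t, j ≠ i ∧
      ((part U d j).filter fun x => ¬ G.Adj u x ∧ ¬ G.Adj w x).card < LL t k

/-- Counting the arcs that leave the parts. -/
def Count : Prop := ∀ (V : Type) (G : SimpleGraph V) (k t L : ℕ) (U : Finset V)
  (d : V → Fin t) (u w : Fin t → V) (j : Fin t → Fin t), (∀ i, (part U d i).card = k) →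
  (∀ i, u i ∈ part U d i) → (∀ i, w i ∈ part U d i) → (∀ i, u i ≠ w i) → (∀ i, j i ≠ i) →
  (∀ i, ((part U d (j i)).filter fun x => ¬ G.Adj (u i) x ∧ ¬ G.Adj (w i) x).card < L) →
  2 * t * k + ∑ i : Fin t, arcs G (part U d i) ≤ arcs G U + 2 * t * (L + 2)

/-- The last inequality. -/
def Arith : Prop := ∀ (k t A S : ℕ), 2 ≤ t → 4000 * t ^ 8 ≤ k →
  (A : ℤ) < ((k : ℤ) + 1) * (((k * t : ℕ) : ℤ) - 2) + 2 →
  t * (k * (k - 1)) ≤ S + ZZ t k → 2 * t * k + S ≤ A + 2 * t * (LL t k + 2) → False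

/-- The lower bound. -/
def Lower : Prop := ∀ (V : Type) (G : SimpleGraph V) (k t : ℕ) (U : Finset V), 1 ≤ t →
  4000 * t ^ 8 ≤ k → U.card = k * t → Ind G U t → ¬ Sp G k U

/-- The disjoint union of `t` complete graphs with `k` vertices. -/
def blocks (k t : ℕ) : SimpleGraph (Fin (k * t)) where
  Adj x y := x ≠ y ∧ (x : ℕ) / k = (y : ℕ) / k
  symm := ⟨fun _ _ h => ⟨h.1.symm, h.2.symm⟩⟩
  loopless := ⟨fun _ h => h.1 rfl⟩

def BlocksFree : Prop := ∀ k t : ℕ, 3 ≤ k → (blocks k t)ᶜ.CliqueFree (t + 1)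

def BlocksSp : Prop := ∀ k t : ℕ, 3 ≤ k → ∀ W : Finset (Fin (k * t)), 3 ≤ W.card →
  (arcs (blocks k t) W : ℤ) ≤ ((k : ℤ) + 1) * ((W.card : ℤ) - 2) + 2

def BlocksEq : Prop := ∀ k t : ℕ, 3 ≤ k → 1 ≤ t → ∃ W : Finset (Fin (k * t)), W.card = k ∧
  arcs (blocks k t) W = k * (k - 1)

def SubLe : Prop := ∀ (V : Type) [Fintype V] (G : SimpleGraph V) (F : G.Subgraph),
  2 * F.edgeSet.ncard ≤ arcs G F.verts.toFinset

def SubEq : Prop := ∀ (V : Type) [Fintype V] (G : SimpleGraph V) (W : Finset V),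
  2 * ((⊤ : G.Subgraph).induce (W : Set V)).edgeSet.ncard = arcs G W

/-- `x` is the 2-density of `G`: the maximum over all subgraphs `F` with at least three vertices of
`(e(F) - 1) / (v(F) - 2)`. -/
def IsTwoDensity {V : Type} (G : SimpleGraph V) (x : ℝ) : Prop :=
  IsGreatest {d : ℝ | ∃ F : G.Subgraph, 3 ≤ F.verts.ncard ∧
    d = ((F.edgeSet.ncard : ℝ) - 1) / ((F.verts.ncard : ℝ) - 2)} x

/-- The result. -/
def Final : Prop := ∀ r k : ℕ, 3 ≤ r → 4000 * (r - 1) ^ 8 ≤ k →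
  IsLeast {x : ℝ | ∃ G : SimpleGraph (Fin (k * (r - 1))), Gᶜ.CliqueFree r ∧ IsTwoDensity G x}
    (((k : ℝ) + 1) / 2)

end Pool.Agent.Q224.TD
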