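import Pool.Agent.Q224.TD.Stmts

set_option autoImplicit false

open scoped BigOperators Classical

namespace Pool.Agent.Q224.TD

theorem subEq : SubEq := by
  intro V _ G W
  set H : SimpleGraph V := ((⊤ : G.Subgraph).induce (W : Set V)).spanningCoe with hH
  have hadj : ∀ x y, H.Adj x y ↔ x ∈ W ∧ y ∈ W ∧ G.Adj x y := by
    intro x y
    simp [hH]
  have h1 : ((⊤ : G.Subgraph).induce (W : Set V)).edgeSet.ncard = H.edgeFinset.card := by
    rw [← Set.ncard_coe_finset, SimpleGraph.coe_edgeFinset, hH,
      SimpleGraph.Subgraph.edgeSet_spanningCoe]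
  have h2 := H.sum_degrees_eq_twice_card_edges
  rw [h1, ← h2]
  unfold arcs
  have h3 : ((W ×ˢ W).filter fun p => G.Adj p.1 p.2) =
      (Finset.univ : Finset (V × V)).filter (fun p => H.Adj p.1 p.2) := by
    ext p
    simp [hadj, and_assoc]
  rw [h3, Finset.card_filter, Fintype.sum_prod_type]
  refine Finset.sum_congr rfl fun v _ => ?_
  rw [← SimpleGraph.card_neighborFinset_eq_degree, SimpleGraph.neighborFinset_eq_filter,
    Finset.card_filter]

end Pool.Agent.Q224.TD
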