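import Pool.Agent.Q224.TD.Stmts

set_option autoImplicit false

open scoped BigOperators Classical

namespace Pool.Agent.Q224.TD

theorem subLe : SubLe := by
  intro V _ G F
  have h1 : F.edgeSet.ncard = F.spanningCoe.edgeFinset.card := by
    rw [← F.edgeSet_spanningCoe, Set.ncard_eq_toFinset_card']
    congr 1
  have h2 := F.spanningCoe.dart_card_eq_twice_card_edges
  rw [h1, ← h2, ← Finset.card_univ]
  unfold arcs
  refine Finset.card_le_card_of_injOn (fun d => d.toProd) ?_ ?_
  · intro d _
    have hd : F.Adj d.toProd.1 d.toProd.2 := d.adj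
    simp only [Finset.coe_filter, Finset.mem_product, Set.mem_setOf_eq, Set.mem_toFinset]
    exact ⟨⟨F.edge_vert hd, F.edge_vert hd.symm⟩, F.adj_sub hd⟩
  · intro d _ e _ h
    exact SimpleGraph.Dart.ext _ _ h

end Pool.Agent.Q224.TD
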