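import Pool.Agent.Q224.TD.Stmts

set_option autoImplicit false

open scoped BigOperators Classical
open Finset

namespace Pool.Agent.Q224.TD

private theorem fiber_le {V κ : Type} [Fintype κ] [DecidableEq κ] (G : SimpleGraph V)
    (N : κ → Finset V) (i j : κ) (hij : i ≠ j) :
    ((Fintype.piFinset N).filter fun f => G.Adj (f i) (f j)).card * ((N i).card * (N j).card) ≤
      cr G (N i) (N j) * (Fintype.piFinset N).card := by
  unfold cr
  rw [← Finset.card_product, ← Finset.card_product, ← Finset.card_product]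
  refine Finset.card_le_card_of_injOn
    (fun q : (κ → V) × (V × V) => ((q.1 i, q.1 j),
      Function.update (Function.update q.1 i q.2.1) j q.2.2)) ?_ ?_
  · rintro ⟨f, u, v⟩ h
    simp only [Finset.coe_product, Set.mem_prod, Finset.mem_coe, Finset.mem_filter,
      Fintype.mem_piFinset, Finset.mem_product] at h ⊢
    obtain ⟨⟨hf, hadj⟩, hu, hv⟩ := h
    refine ⟨⟨⟨hf i, hf j⟩, hadj⟩, fun l => ?_⟩
    by_cases hlj : l = j
    · subst hlj; simpa using hv
    · rw [Function.update_of_ne hlj]
      by_cases hli : l = i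
      · subst hli; simpa using hu
      · rw [Function.update_of_ne hli]; exact hf l
  · rintro ⟨f, u, v⟩ _ ⟨f', u', v'⟩ _ h
    simp only [Prod.mk.injEq] at h
    obtain ⟨⟨h1, h2⟩, h3⟩ := h
    have e : ∀ l, Function.update (Function.update f i u) j v l =
        Function.update (Function.update f' i u') j v' l := fun l => by rw [h3]
    have ev : v = v' := by simpa using e j
    have eu : u = u' := by
      have := e i
      rw [Function.update_of_ne hij, Function.update_of_ne hij] at this
      simpa using this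
    have ef : f = f' := by
      funext l
      by_cases hlj : l = j
      · subst hlj; exact h2
      · by_cases hli : l = i
        · subst hli; exact h1
        · have := e l
          rwa [Function.update_of_ne hlj, Function.update_of_ne hlj, Function.update_of_ne hli,
            Function.update_of_ne hli] at this
    rw [ev, eu, ef]

theorem transv : Transv := by
  intro V G ι J N L E hJ hN hcr hlt
  have hL : 0 < L := by
    rcases Nat.eq_zero_or_pos L with h | h
    · subst h; simp at hlt
    · exact h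
  let κ := {x // x ∈ J}
  let M : κ → Finset V := fun j => N j.1
  have hMpos : ∀ j : κ, 0 < (M j).card := fun j => lt_of_lt_of_le hL (hN j.1 j.2)
  have hP : 0 < (Fintype.piFinset M).card := by
    rw [Fintype.card_piFinset]
    exact Finset.prod_pos fun j _ => hMpos j
  by_contra hcon
  have hbad : ∀ f ∈ Fintype.piFinset M, ∃ p : κ × κ, p.1 ≠ p.2 ∧ G.Adj (f p.1) (f p.2) := by
    intro f hf
    by_contra hno
    push Not at hno
    apply hcon
    obtain ⟨j0, hj0⟩ := hJ
    refine ⟨fun x => if h : x ∈ J then f ⟨x, h⟩ else f ⟨j0, hj0⟩, ?_, ?_⟩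
    · intro j hj
      show (if h : j ∈ J then f ⟨j, h⟩ else f ⟨j0, hj0⟩) ∈ N j
      rw [dif_pos hj]
      exact (Fintype.mem_piFinset.1 hf) ⟨j, hj⟩
    · intro i hi j hj hij
      show ¬ G.Adj (if h : i ∈ J then f ⟨i, h⟩ else f ⟨j0, hj0⟩)
        (if h : j ∈ J then f ⟨j, h⟩ else f ⟨j0, hj0⟩)
      rw [dif_pos hi, dif_pos hj]
      exact hno (⟨i, hi⟩, ⟨j, hj⟩) (fun h => hij (congrArg Subtype.val h))
  -- the union bound
  have h1 : Fintype.piFinset M ⊆ ((Finset.univ : Finset (κ × κ)).filter fun p => p.1 ≠ p.2).biUnion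
      (fun p => (Fintype.piFinset M).filter fun f => G.Adj (f p.1) (f p.2)) := by
    intro f hf
    obtain ⟨p, hp1, hp2⟩ := hbad f hf
    rw [Finset.mem_biUnion]
    exact ⟨p, by simp [hp1], by rw [Finset.mem_filter]; exact ⟨hf, hp2⟩⟩
  have h2 := Finset.card_le_card h1
  have h3 := h2.trans Finset.card_biUnion_le
  have h4 : ∀ p ∈ ((Finset.univ : Finset (κ × κ)).filter fun p => p.1 ≠ p.2),
      ((Fintype.piFinset M).filter fun f => G.Adj (f p.1) (f p.2)).card * L ^ 2 ≤
        E * (Fintype.piFinset M).card := by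
    intro p hp
    have hp' : p.1 ≠ p.2 := (Finset.mem_filter.1 hp).2
    have h5 := fiber_le G M p.1 p.2 hp'
    have h6 : L ^ 2 ≤ (M p.1).card * (M p.2).card := by
      rw [sq]
      exact Nat.mul_le_mul (hN p.1.1 p.1.2) (hN p.2.1 p.2.2)
    have h7 : cr G (M p.1) (M p.2) ≤ E :=
      hcr p.1.1 p.1.2 p.2.1 p.2.2 (fun h => hp' (Subtype.ext h))
    calc _ ≤ ((Fintype.piFinset M).filter fun f => G.Adj (f p.1) (f p.2)).card *
          ((M p.1).card * (M p.2).card) := Nat.mul_le_mul_left _ h6
      _ ≤ _ := h5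
      _ ≤ _ := Nat.mul_le_mul_right _ h7
  have h8 : (Fintype.piFinset M).card * L ^ 2 ≤
      (((Finset.univ : Finset (κ × κ)).filter fun p => p.1 ≠ p.2).card) *
        (E * (Fintype.piFinset M).card) := by
    calc (Fintype.piFinset M).card * L ^ 2 ≤ (∑ p ∈ ((Finset.univ : Finset (κ × κ)).filter
          fun p => p.1 ≠ p.2), ((Fintype.piFinset M).filter fun f => G.Adj (f p.1) (f p.2)).card)
          * L ^ 2 := Nat.mul_le_mul_right _ h3
      _ = ∑ p ∈ ((Finset.univ : Finset (κ × κ)).filter fun p => p.1 ≠ p.2),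
          ((Fintype.piFinset M).filter fun f => G.Adj (f p.1) (f p.2)).card * L ^ 2 := by
        rw [Finset.sum_mul]
      _ ≤ ∑ _p ∈ ((Finset.univ : Finset (κ × κ)).filter fun p => p.1 ≠ p.2),
          E * (Fintype.piFinset M).card := Finset.sum_le_sum h4
      _ = _ := by rw [Finset.sum_const, smul_eq_mul]
  have h9 : ((Finset.univ : Finset (κ × κ)).filter fun p => p.1 ≠ p.2).card ≤ J.card ^ 2 := by
    refine (Finset.card_filter_le _ _).trans ?_
    rw [Finset.card_univ, Fintype.card_prod, Fintype.card_coe, sq]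
  have h10 : (Fintype.piFinset M).card * L ^ 2 ≤ J.card ^ 2 * E * (Fintype.piFinset M).card := by
    calc _ ≤ _ := h8
      _ ≤ J.card ^ 2 * (E * (Fintype.piFinset M).card) := Nat.mul_le_mul_right _ h9
      _ = _ := by ring
  have h11 : J.card ^ 2 * E * (Fintype.piFinset M).card < L ^ 2 * (Fintype.piFinset M).card :=
    Nat.mul_lt_mul_of_pos_right hlt hP
  rw [mul_comm (L ^ 2)] at h11
  omega

end Pool.Agent.Q224.TD
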